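import Pool.Agent.H534R2.GenDefs

/-!
# Comparator circuits

Path systems `PS V`, solvability `Solv` and (fan-in two) monotone circuits `MC` are those of
`Pool.Agent.H534R2.GenDefs`.
-/

namespace H198R2.CC

/-- what a source node of a comparator circuit carries: a constant or a variable -/
inductive Lit (X : Type) : Type
  | const (b : Bool) : Lit X
  | var (x : X) : Lit X

/-- the value of a source under the assignment `v` -/
def Lit.val {X : Type} : Lit X → (X → Prop) → Prop
  | .const b, _ => b = true
  | .var x, v => v x

/-- A gate of a comparator circuit with `m` wires: the comparator `cmp i j` replaces the values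
`a, b` on the wires `i, j` by `a ∧ b, a ∨ b` (for `i = j` nothing happens); `cst i b` discards the
value on the wire `i` and replaces it by the constant `b`. -/
inductive Gate (m : ℕ) : Type
  | cmp (i j : Fin m) : Gate m
  | cst (i : Fin m) (b : Bool) : Gate m

/-- the effect of a gate on the values of the wires -/
def Gate.step {m : ℕ} : Gate m → (Fin m → Prop) → (Fin m → Prop)
  | .cmp i j, s => Function.update (Function.update s i (s i ∧ s j)) j (s i ∨ s j)
  | .cst i b, s => Function.update s i (b = true)

/-- A (monotone) comparator circuit on the variables `X`: `m` wires, each starting at a source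
that carries a constant or a variable, a list of gates, and the wire of the output. -/
structure CNet (X : Type) where
  wires : ℕ
  src : Fin wires → Lit X
  gates : List (Gate wires)
  out : Fin wires

/-- the values of the wires after all gates -/
def CNet.final {X : Type} (N : CNet X) (v : X → Prop) : Fin N.wires → Prop :=
  N.gates.foldl (fun s G => G.step s) (fun i => (N.src i).val v)

/-- the circuit outputs true -/
def CNet.Accepts {X : Type} (N : CNet X) (v : X → Prop) : Prop := N.final v N.out

/-- Gates of comparator circuits with NOT gates: `neg i` negates the value on the wire `i`. -/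
inductive NGate (m : ℕ) : Type
  | cmp (i j : Fin m) : NGate m
  | cst (i : Fin m) (b : Bool) : NGate m
  | neg (i : Fin m) : NGate m

/-- the effect of a gate on the values of the wires -/
def NGate.step {m : ℕ} : NGate m → (Fin m → Prop) → (Fin m → Prop)
  | .cmp i j, s => Function.update (Function.update s i (s i ∧ s j)) j (s i ∨ s j)
  | .cst i b, s => Function.update s i (b = true)
  | .neg i, s => Function.update s i (¬ s i)

/-- 1 for NOT gates, 0 for the others -/
def NGate.isNeg {m : ℕ} : NGate m → ℕ
  | .neg _ => 1
  | _ => 0

/-- A comparator circuit with NOT gates. -/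
structure NNet (X : Type) where
  wires : ℕ
  src : Fin wires → Lit X
  gates : List (NGate wires)
  out : Fin wires

/-- the number of NOT gates -/
def NNet.nots {X : Type} (N : NNet X) : ℕ := (N.gates.map NGate.isNeg).sum

/-- the circuit outputs true -/
def NNet.Accepts {X : Type} (N : NNet X) (v : X → Prop) : Prop :=
  N.gates.foldl (fun s G => G.step s) (fun i => (N.src i).val v) N.out

/-- Monotone circuits with gates of unbounded fan-in over the variables `X`, as lists of pairs
(depth, function computed at the gate): a gate is a constant or a variable (depth 0), or
the conjunction or disjunction of a list of earlier gates of smaller depth. -/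
inductive UC {X : Type} : List (ℕ × ((X → Prop) → Prop)) → Prop
  | nil : UC []
  | cst (p : Prop) (L : List (ℕ × ((X → Prop) → Prop))) : UC L → UC ((0, fun _ => p) :: L)
  | var (x : X) (L : List (ℕ × ((X → Prop) → Prop))) : UC L → UC ((0, fun v => v x) :: L)
  | and (d : ℕ) (S L : List (ℕ × ((X → Prop) → Prop))) : (∀ p ∈ S, p ∈ L ∧ p.1 < d) → UC L →
      UC ((d, fun v => ∀ p ∈ S, p.2 v) :: L)
  | or (d : ℕ) (S L : List (ℕ × ((X → Prop) → Prop))) : (∀ p ∈ S, p ∈ L ∧ p.1 < d) → UC L →
      UC ((d, fun v => ∃ p ∈ S, p.2 v) :: L)

end H198R2.CC
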