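import Pool.Agent.H198R2.CC.Thr

/-!
# Few NOT gates are enough (Markov, Fischer) for comparator circuits
-/

set_option linter.unusedSectionVars false

namespace H198R2.CC

section dual

variable {m : ℕ}

/-- dual-rail translation: the wire `(i, φ i)` carries the value on the wire `i`, the
wire `(i, !φ i)` its negation -/
def tr : List (NGate m) → (Fin m → Bool) → List (WG (Fin m × Bool)) × (Fin m → Bool)
  | [], φ => ([], φ)
  | .cmp i j :: L, φ => if i = j then tr L φ else
      (.cmp (i, φ i) (j, φ j) :: .cmp (j, !φ j) (i, !φ i) :: (tr L φ).1, (tr L φ).2)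
  | .cst i b :: L, φ => (.cst (i, φ i) b :: .cst (i, !φ i) (!b) :: (tr L φ).1, (tr L φ).2)
  | .neg i :: L, φ => tr L (Function.update φ i (!φ i))

/-- the invariant of the translation -/
def Rel (φ : Fin m → Bool) (s : Fin m → Prop) (r : Fin m × Bool → Prop) : Prop :=
  ∀ i, (r (i, φ i) ↔ s i) ∧ (r (i, !φ i) ↔ ¬ s i)

theorem Rel.cmp {φ : Fin m → Bool} {s : Fin m → Prop} {r : Fin m × Bool → Prop}
    (h : Rel φ s r) {i j : Fin m} (hij : i ≠ j) :
    Rel φ ((NGate.cmp i j).step s)
      ((WG.cmp (j, !φ j) (i, !φ i)).step ((WG.cmp (i, φ i) (j, φ j)).step r)) := by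
  have hji : j ≠ i := fun h => hij h.symm
  have n1 : ((i, φ i) : Fin m × Bool) ≠ (j, !φ j) := fun h => hij (congrArg Prod.fst h)
  have n2 : ((i, φ i) : Fin m × Bool) ≠ (i, !φ i) := fun h => by
    have := congrArg Prod.snd h
    simp at this
  have n3 : ((j, φ j) : Fin m × Bool) ≠ (j, !φ j) := fun h => by
    have := congrArg Prod.snd h
    simp at this
  have n4 : ((j, φ j) : Fin m × Bool) ≠ (i, !φ i) := fun h => hji (congrArg Prod.fst h)
  have n5 : ((i, φ i) : Fin m × Bool) ≠ (j, φ j) := fun h => hij (congrArg Prod.fst h)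
  have n6 : ((j, !φ j) : Fin m × Bool) ≠ (i, !φ i) := fun h => hji (congrArg Prod.fst h)
  intro k
  by_cases hki : k = i
  · subst hki
    have e : (NGate.cmp k j).step s k = (s k ∧ s j) := by
      show Function.update (Function.update s k _) j _ k = _
      rw [Function.update_of_ne hij, Function.update_self]
    rw [e, step_cmp_ne n1 n2, step_cmp_fst n5, step_cmp_snd, step_cmp_ne n1.symm n3.symm,
      step_cmp_ne n2.symm n4.symm, (h k).1, (h j).1, (h k).2, (h j).2]
    tauto
  · by_cases hkj : k = j
    · subst hkj
      have e : (NGate.cmp i k).step s k = (s i ∨ s k) := by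
        show Function.update (Function.update s i _) k _ k = _
        rw [Function.update_self]
      rw [e, step_cmp_ne n3 n4, step_cmp_snd, step_cmp_fst n6, step_cmp_ne n1.symm n3.symm,
        step_cmp_ne n2.symm n4.symm, (h k).1, (h i).1, (h k).2, (h i).2]
      tauto
    · have e : (NGate.cmp i j).step s k = s k := by
        show Function.update (Function.update s i _) j _ k = _
        rw [Function.update_of_ne hkj, Function.update_of_ne hki]
      have m1 : ∀ b c, ((k, b) : Fin m × Bool) ≠ (i, c) := fun b c h => hki (congrArg Prod.fst h)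
      have m2 : ∀ b c, ((k, b) : Fin m × Bool) ≠ (j, c) := fun b c h => hkj (congrArg Prod.fst h)
      rw [e, step_cmp_ne (m2 _ _) (m1 _ _), step_cmp_ne (m1 _ _) (m2 _ _),
        step_cmp_ne (m2 _ _) (m1 _ _), step_cmp_ne (m1 _ _) (m2 _ _)]
      exact h k

theorem step_cst_self {W : Type} (i : W) (b : Bool) (s : W → Prop) :
    (WG.cst i b).step s i = (b = true) := by
  classical
  show Function.update s i _ i = _
  rw [Function.update_self]

theorem step_cst_ne {W : Type} {i w : W} (h : w ≠ i) (b : Bool) (s : W → Prop) :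
    (WG.cst i b).step s w = s w := by
  classical
  show Function.update s i _ w = _
  rw [Function.update_of_ne h]

theorem Rel.cst {φ : Fin m → Bool} {s : Fin m → Prop} {r : Fin m × Bool → Prop}
    (h : Rel φ s r) (i : Fin m) (b : Bool) :
    Rel φ ((NGate.cst i b).step s)
      ((WG.cst (i, !φ i) (!b)).step ((WG.cst (i, φ i) b).step r)) := by
  have n2 : ((i, φ i) : Fin m × Bool) ≠ (i, !φ i) := fun h => by
    have := congrArg Prod.snd h
    simp at this
  intro k
  by_cases hki : k = i
  · subst hki
    have e : (NGate.cst k b).step s k = (b = true) := by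
      show Function.update s k _ k = _
      rw [Function.update_self]
    rw [e, step_cst_ne n2, step_cst_self, step_cst_self]
    simp
  · have e : (NGate.cst i b).step s k = s k := by
      show Function.update s i _ k = _
      rw [Function.update_of_ne hki]
    have m1 : ∀ b c, ((k, b) : Fin m × Bool) ≠ (i, c) := fun b c h => hki (congrArg Prod.fst h)
    rw [e, step_cst_ne (m1 _ _), step_cst_ne (m1 _ _), step_cst_ne (m1 _ _), step_cst_ne (m1 _ _)]
    exact h k

theorem Rel.neg {φ : Fin m → Bool} {s : Fin m → Prop} {r : Fin m × Bool → Prop}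
    (h : Rel φ s r) (i : Fin m) :
    Rel (Function.update φ i (!φ i)) ((NGate.neg i).step s) r := by
  intro k
  by_cases hki : k = i
  · subst hki
    have e : (NGate.neg k).step s k = (¬ s k) := by
      show Function.update s k _ k = _
      rw [Function.update_self]
    rw [e, Function.update_self, Bool.not_not]
    refine ⟨(h k).2, ?_⟩
    rw [(h k).1, not_not]
  · have e : (NGate.neg i).step s k = s k := by
      show Function.update s i _ k = _
      rw [Function.update_of_ne hki]
    rw [e, Function.update_of_ne hki]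
    exact h k

theorem tr_spec (L : List (NGate m)) : ∀ (φ : Fin m → Bool) (s : Fin m → Prop)
    (r : Fin m × Bool → Prop), Rel φ s r →
    Rel (tr L φ).2 (L.foldl (fun s G => G.step s) s) (wrun (tr L φ).1 r) := by
  induction L with
  | nil => intro φ s r h; exact h
  | cons G L ih =>
    intro φ s r h
    cases G with
    | cmp i j =>
      by_cases hij : i = j
      · subst hij
        have e : (NGate.cmp i i).step s = s := by
          funext k
          show Function.update (Function.update s i _) i _ k = _
          by_cases hk : k = i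
          · subst hk
            rw [Function.update_self]
            exact propext or_self_iff
          · rw [Function.update_of_ne hk, Function.update_of_ne hk]
        show Rel (tr (.cmp i i :: L) φ).2 (L.foldl (fun s G => G.step s) ((NGate.cmp i i).step s))
          (wrun (tr (.cmp i i :: L) φ).1 r)
        rw [e]
        simp only [tr, if_true]
        exact ih φ s r h
      · show Rel (tr (.cmp i j :: L) φ).2 (L.foldl (fun s G => G.step s) ((NGate.cmp i j).step s))
          (wrun (tr (.cmp i j :: L) φ).1 r)
        simp only [tr, if_neg hij]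
        exact ih φ _ _ (h.cmp hij)
    | cst i b => exact ih φ _ _ (h.cst i b)
    | neg i => exact ih _ _ _ (h.neg i)

end dual

section fischer

variable {X : Type}

open Classical in
/-- the inputs of the dual-rail circuit, when `c` variables of `S` are true -/
noncomputable def inp (S : Finset X) (c : ℕ) (l : Lit X) : Bool → (X → Prop) → Prop
  | true, v => l.val v
  | false, v => match l with
    | .const b => b = false
    | .var x => if x ∈ S then c ≤ ((S.erase x).filter v).card else True

open Classical in
theorem cp_inp (S : Finset X) (c : ℕ) (l : Lit X) (b : Bool) :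
    Cp (inp S c l b) (S.card + c + 1) := by
  cases b with
  | true => exact (cp_lit l).mono (by omega)
  | false =>
    cases l with
    | const b =>
      refine Cp.mono (n := 1) ?_ (by omega)
      obtain ⟨W, i, src, L, o, hn, hp⟩ := cp_lit (X := X) (.const (!b))
      refine ⟨W, i, src, L, o, hn, fun v => (hp v).trans ?_⟩
      show ((!b) = true) ↔ b = false
      simp
    | var x =>
      by_cases hx : x ∈ S
      · have h := (cp_thr (S.erase x) c).mono (m := S.card + c + 1)
          (by have := Finset.card_erase_le (s := S) (a := x); omega)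
        obtain ⟨W, i, src, L, o, hn, hp⟩ := h
        refine ⟨W, i, src, L, o, hn, fun v => (hp v).trans ?_⟩
        show _ ↔ (if x ∈ S then c ≤ ((S.erase x).filter v).card else True)
        rw [if_pos hx]
      · refine Cp.mono (n := 1) ?_ (by omega)
        obtain ⟨W, i, src, L, o, hn, hp⟩ := cp_lit (X := X) (.const true)
        refine ⟨W, i, src, L, o, hn, fun v => (hp v).trans ?_⟩
        show (true = true) ↔ (if x ∈ S then c ≤ ((S.erase x).filter v).card else True)
        rw [if_neg hx]
        simp

open Classical in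
theorem inp_false {S : Finset X} {c : ℕ} (l : Lit X) {v : X → Prop} (hv : ∀ x, v x → x ∈ S)
    (hc : (S.filter v).card = c) : inp S c l false v ↔ ¬ l.val v := by
  cases l with
  | const b =>
    show b = false ↔ ¬ (b = true)
    simp
  | var x =>
    show (if x ∈ S then c ≤ ((S.erase x).filter v).card else True) ↔ ¬ v x
    by_cases hx : x ∈ S
    · rw [if_pos hx]
      by_cases hvx : v x
      · refine ⟨fun h => ?_, fun h => absurd hvx h⟩
        exfalso
        have h1 : ((S.erase x).filter v) = (S.filter v).erase x := by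
          ext y; simp [and_assoc]
        have h2 : x ∈ S.filter v := Finset.mem_filter.2 ⟨hx, hvx⟩
        have h3 := Finset.card_erase_lt_of_mem h2
        rw [h1] at h
        omega
      · refine ⟨fun _ => hvx, fun _ => ?_⟩
        have h1 : ((S.erase x).filter v) = S.filter v := by
          ext y
          simp only [Finset.mem_filter, Finset.mem_erase]
          constructor
          · rintro ⟨⟨-, a⟩, b⟩; exact ⟨a, b⟩
          · rintro ⟨a, b⟩; exact ⟨⟨fun h => hvx (h ▸ b), a⟩, b⟩
        rw [h1, hc]
    · rw [if_neg hx]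
      exact ⟨fun _ h => hx (hv x h), fun _ => trivial⟩

open Classical in
/-- if the number of true variables is known, negations are not needed -/
theorem exists_mono (N : NNet X) (S : Finset X) (c : ℕ) : ∃ P : CNet X,
    P.wires ≤ 2 * N.wires * (S.card + c + 1) ∧ ∀ v : X → Prop, (∀ x, v x → x ∈ S) →
      (S.filter v).card = c → (P.Accepts v ↔ N.Accepts v) := by
  have h := cp_comp (X := X) (W := Fin N.wires × Bool) (fun z => inp S c (N.src z.1) z.2)
    (S.card + c + 1) (fun z => cp_inp S c _ _) (tr N.gates (fun _ => true)).1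
    (N.out, (tr N.gates (fun _ => true)).2 N.out)
  obtain ⟨P, h1, h2⟩ := h.toCNet
  refine ⟨P, h1.trans (le_of_eq ?_), ?_⟩
  · rw [Fintype.card_prod, Fintype.card_fin, Fintype.card_bool]; ring
  · intro v hv hc
    rw [h2 v]
    have h3 := tr_spec N.gates (fun _ => true) (fun i => (N.src i).val v)
      (fun z => inp S c (N.src z.1) z.2 v) (by
        intro i
        exact ⟨Iff.rfl, inp_false (N.src i) hv hc⟩)
    exact (h3 N.out).1

open Classical in
/-- the lower end of the search interval after `i` rounds -/
noncomputable def loA (d : ℕ) (A : ℕ → ℕ → Prop) : ℕ → ℕ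
  | 0 => 0
  | i + 1 => loA d A i + if A i 0 then 2 ^ (d - 1 - i) else 0

theorem loA_le (d : ℕ) (A : ℕ → ℕ → Prop) (i : ℕ) (hi : i ≤ d) :
    loA d A i + 2 ^ (d - i) ≤ 2 ^ d := by
  classical
  induction i with
  | zero => simp [loA]
  | succ i ih =>
    have h1 := ih (by omega)
    have h2 : d - i = (d - 1 - i) + 1 := by omega
    have h3 : d - (i + 1) = d - 1 - i := by omega
    rw [h2, pow_succ] at h1
    rw [h3]
    show (loA d A i + if A i 0 then 2 ^ (d - 1 - i) else 0) + 2 ^ (d - 1 - i) ≤ 2 ^ d
    split_ifs <;> omega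

theorem loA_congr (d : ℕ) (A A' : ℕ → ℕ → Prop) (i : ℕ) (h : ∀ j < i, (A j 0 ↔ A' j 0)) :
    loA d A i = loA d A' i := by
  classical
  induction i with
  | zero => rfl
  | succ i ih =>
    show (loA d A i + if A i 0 then 2 ^ (d - 1 - i) else 0)
      = loA d A' i + if A' i 0 then 2 ^ (d - 1 - i) else 0
    rw [ih (fun j hj => h j (by omega))]
    have := h i (Nat.lt_succ_self i)
    simp only [this]

open Classical in
/-- the search -/
noncomputable def gg (d c : ℕ) : ℕ → ℕ
  | 0 => 0
  | i + 1 => gg d c i + if gg d c i + 2 ^ (d - 1 - i) ≤ c then 2 ^ (d - 1 - i) else 0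

theorem gg_spec (d c : ℕ) (hc : c < 2 ^ d) (i : ℕ) (hi : i ≤ d) :
    gg d c i ≤ c ∧ c < gg d c i + 2 ^ (d - i) := by
  classical
  induction i with
  | zero => simpa [gg] using hc
  | succ i ih =>
    obtain ⟨h1, h2⟩ := ih (by omega)
    have h3 : d - i = (d - 1 - i) + 1 := by omega
    have h4 : d - (i + 1) = d - 1 - i := by omega
    rw [h3, pow_succ] at h2
    rw [h4]
    have e : gg d c (i + 1) = gg d c i +
      if gg d c i + 2 ^ (d - 1 - i) ≤ c then 2 ^ (d - 1 - i) else 0 := rfl
    rw [e]
    split_ifs with h
    · omega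
    · omega

theorem loA_gg (d c : ℕ) (i : ℕ) :
    loA d (fun i _ => gg d c i + 2 ^ (d - 1 - i) ≤ c) i = gg d c i := by
  classical
  induction i with
  | zero => rfl
  | succ i ih =>
    by_cases h : gg d c i + 2 ^ (d - 1 - i) ≤ c
    · simp only [loA, gg, ih, if_pos h]
    · simp only [loA, gg, ih, if_neg h]

open Classical in
/-- **`⌈log₂ (n + 1)⌉` NOT gates are enough** for comparator circuits. -/
theorem fischer (N : NNet X) (S : Finset X) (d : ℕ) (hd : S.card + 1 ≤ 2 ^ d) :
    ∃ P : ℕ → ℕ → (ℕ → ℕ → Prop) → CNet X,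
      (∀ i k A A', (∀ j < i, ∀ k' < 1, (A j k' ↔ A' j k')) → P i k A = P i k A') ∧
      (∀ A, (∑ i ∈ Finset.range d, ∑ k ∈ Finset.range 1, (P i k A).wires) + (P d 0 A).wires
        ≤ (d + 2 * N.wires) * (S.card + 2 ^ d + 1)) ∧
      ∀ v : X → Prop, (∀ x, v x → x ∈ S) → ∃ A : ℕ → ℕ → Prop,
        (∀ i < d, ∀ k < 1, (A i k ↔ (P i k A).Accepts v)) ∧
        ((P d 0 A).Accepts v ↔ N.Accepts v) := by
  choose T hT1 hT2 using fun k => (cp_thr (X := X) S k).toCNet
  choose Q hQ1 hQ2 using fun c => exists_mono N S c
  refine ⟨fun i _ A => if i < d then T (loA d A i + 2 ^ (d - 1 - i)) else Q (loA d A i),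
    ?_, ?_, ?_⟩
  · intro i k A A' h
    have := loA_congr d A A' i (fun j hj => h j hj 0 Nat.one_pos)
    simp only [this]
  · intro A
    simp only [Finset.sum_const, Finset.card_range, smul_eq_mul, one_mul, lt_irrefl, if_false]
    have h1 : ∑ i ∈ Finset.range d, (if i < d then T (loA d A i + 2 ^ (d - 1 - i))
        else Q (loA d A i)).wires ≤ ∑ _i ∈ Finset.range d, (S.card + 2 ^ d + 1) := by
      refine Finset.sum_le_sum fun i hi => ?_
      rw [Finset.mem_range] at hi
      rw [if_pos hi]
      refine (hT1 _).trans ?_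
      have h2 := loA_le d A i (by omega)
      have h3 : 2 ^ (d - 1 - i) ≤ 2 ^ (d - i) := Nat.pow_le_pow_right (by norm_num) (by omega)
      omega
    rw [Finset.sum_const, Finset.card_range, smul_eq_mul] at h1
    have h4 := loA_le d A d le_rfl
    rw [Nat.sub_self, pow_zero] at h4
    have h5 : (Q (loA d A d)).wires ≤ 2 * N.wires * (S.card + 2 ^ d + 1) :=
      (hQ1 _).trans (Nat.mul_le_mul_left _ (by omega))
    rw [add_mul]
    exact Nat.add_le_add h1 h5
  · intro v hv
    obtain ⟨c, hc⟩ : ∃ c, c = (S.filter v).card := ⟨_, rfl⟩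
    have hcd : c < 2 ^ d := by
      have := Finset.card_filter_le S v
      omega
    refine ⟨fun i _ => gg d c i + 2 ^ (d - 1 - i) ≤ c, ?_, ?_⟩
    · intro i hi k _
      show _ ↔ (if i < d then T (loA d _ i + 2 ^ (d - 1 - i)) else Q (loA d _ i)).Accepts v
      rw [if_pos hi, hT2, loA_gg, hc]
    · show (if d < d then T (loA d _ d + 2 ^ (d - 1 - d)) else Q (loA d _ d)).Accepts v ↔ _
      rw [if_neg (lt_irrefl d), loA_gg]
      have h1 := gg_spec d c hcd d le_rfl
      rw [Nat.sub_self, pow_zero] at h1
      have h2 : gg d c d = c := by omega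
      rw [h2]
      exact hQ2 c v hv hc.symm

end fischer

end H198R2.CC
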