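import Pool.Agent.H198R2.CC.Defs
import Pool.Agent.H534R2.GenCirc

/-!
# Shallow monotone circuits of unbounded fan-in for the pyramid path systems
-/

set_option linter.unusedSectionVars false

namespace H198R2.CC

open Finset Relation H534R2.Gen

/-- a circuit containing the gates in `B` can be extended by `n` gates to contain those in `A` -/
def UStep {X : Type} (B A : Set (ℕ × ((X → Prop) → Prop))) (n : ℕ) : Prop :=
  ∀ L, UC L → (∀ f ∈ B, f ∈ L) →
    ∃ L', UC L' ∧ (∀ f ∈ L, f ∈ L') ∧ (∀ f ∈ A, f ∈ L') ∧ L'.length ≤ L.length + n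

section ustep

variable {X : Type} {B A C : Set (ℕ × ((X → Prop) → Prop))} {n m : ℕ}

theorem UStep.mono_n (h : UStep B A n) (hnm : n ≤ m) : UStep B A m := by
  intro L hL hB
  obtain ⟨L', h1, h2, h3, h4⟩ := h L hL hB
  exact ⟨L', h1, h2, h3, by omega⟩

theorem UStep.mono_A (h : UStep B A n) (hC : C ⊆ A) : UStep B C n := by
  intro L hL hB
  obtain ⟨L', h1, h2, h3, h4⟩ := h L hL hB
  exact ⟨L', h1, h2, fun f hf => h3 f (hC hf), h4⟩

theorem UStep.trans (h : UStep B A n) (h' : UStep (A ∪ B) C m) : UStep B (A ∪ C) (n + m) := by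
  intro L hL hB
  obtain ⟨L', h1, h2, h3, h4⟩ := h L hL hB
  obtain ⟨L'', k1, k2, k3, k4⟩ := h' L' h1 (by
    rintro f (hf | hf)
    · exact h3 f hf
    · exact h2 f (hB f hf))
  refine ⟨L'', k1, fun f hf => k2 f (h2 f hf), ?_, by omega⟩
  rintro f (hf | hf)
  · exact k2 f (h3 f hf)
  · exact k3 f hf

theorem ustep_var (x : X) : UStep B {(0, fun v : X → Prop => v x)} 1 := by
  intro L hL _
  refine ⟨_, UC.var x L hL, fun f hf => List.mem_cons_of_mem _ hf, ?_, by simp⟩
  rintro f rfl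
  exact List.mem_cons_self

theorem ustep_list {I : Type} (l : List I) (F : I → ℕ × ((X → Prop) → Prop))
    (h : ∀ i ∈ l, UStep B {F i} n) : UStep B {f | ∃ i ∈ l, f = F i} (n * l.length) := by
  induction l with
  | nil =>
    intro L hL _
    refine ⟨L, hL, fun _ hf => hf, ?_, by simp⟩
    rintro f ⟨i, hi, -⟩
    exact absurd hi (List.not_mem_nil)
  | cons i l ih =>
    have h1 := ih (fun j hj => h j (List.mem_cons_of_mem _ hj))
    have h2 := h i List.mem_cons_self
    intro L hL hB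
    obtain ⟨L1, a1, a2, a3, a4⟩ := h1 L hL hB
    obtain ⟨L2, b1, b2, b3, b4⟩ := h2 L1 a1 (fun f hf => a2 f (hB f hf))
    refine ⟨L2, b1, fun f hf => b2 f (a2 f hf), ?_, ?_⟩
    · rintro f ⟨j, hj, rfl⟩
      rcases List.mem_cons.1 hj with rfl | hj
      · exact b3 _ rfl
      · exact b2 _ (a3 _ ⟨j, hj, rfl⟩)
    · rw [List.length_cons, Nat.mul_add]; omega

theorem ustep_fin {I : Type} [Fintype I] (F : I → ℕ × ((X → Prop) → Prop))
    (h : ∀ i, UStep B {F i} n) : UStep B {f | ∃ i, f = F i} (n * Fintype.card I) := by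
  have h1 := ustep_list (B := B) (n := n) (Finset.univ : Finset I).toList F (fun i _ => h i)
  rw [Finset.length_toList, Finset.card_univ] at h1
  refine h1.mono_A ?_
  rintro f ⟨i, rfl⟩
  exact ⟨i, by simp, rfl⟩

/-- a disjunction of conjunctions of three earlier gates, the first one a variable -/
theorem ustep_ex {I : Type} [Fintype I] (x : I → X) (f g : I → (X → Prop) → Prop) (d : ℕ)
    (hf : ∀ i, (d, f i) ∈ B) (hg : ∀ i, (d, g i) ∈ B) :
    UStep B {(d + 2, fun v => ∃ i, v (x i) ∧ (f i v ∧ g i v))} (2 * Fintype.card I + 1) := by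
  have h1 : ∀ i, UStep B {(d + 1, fun v => v (x i) ∧ (f i v ∧ g i v))} 2 := by
    intro i L hL hB
    refine ⟨_, UC.and (d + 1) [(0, fun v => v (x i)), (d, f i), (d, g i)] _ ?_
      (UC.var (x i) L hL), fun p hp => List.mem_cons_of_mem _ (List.mem_cons_of_mem _ hp), ?_,
      by simp⟩
    · intro p hp
      rcases List.mem_cons.1 hp with rfl | hp
      · exact ⟨List.mem_cons_self, Nat.succ_pos _⟩
      · rcases List.mem_cons.1 hp with rfl | hp
        · exact ⟨List.mem_cons_of_mem _ (hB _ (hf i)), Nat.lt_succ_self _⟩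
        · rcases List.mem_cons.1 hp with rfl | hp
          · exact ⟨List.mem_cons_of_mem _ (hB _ (hg i)), Nat.lt_succ_self _⟩
          · exact absurd hp List.not_mem_nil
    · rintro p rfl
      have e : (fun v : X → Prop => ∀ p ∈ [((0 : ℕ), fun v : X → Prop => v (x i)), (d, f i),
          (d, g i)], p.2 v) = fun v => v (x i) ∧ (f i v ∧ g i v) := by
        funext v; simp
      rw [← e]
      exact List.mem_cons_self
  have h2 := ustep_fin (fun i => (d + 1, fun v => v (x i) ∧ (f i v ∧ g i v))) h1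
  intro L hL hB
  obtain ⟨L', a1, a2, a3, a4⟩ := h2 L hL hB
  refine ⟨_, UC.or (d + 2) ((Finset.univ : Finset I).toList.map
    (fun i => (d + 1, fun v => v (x i) ∧ (f i v ∧ g i v)))) L' ?_ a1,
    fun p hp => List.mem_cons_of_mem _ (a2 p hp), ?_, ?_⟩
  · intro p hp
    rw [List.mem_map] at hp
    obtain ⟨i, -, rfl⟩ := hp
    exact ⟨a3 _ ⟨i, rfl⟩, Nat.lt_succ_self _⟩
  · rintro p rfl
    have e : (fun v : X → Prop => ∃ p ∈ (Finset.univ : Finset I).toList.map
        (fun i => (d + 1, fun v : X → Prop => v (x i) ∧ (f i v ∧ g i v))), p.2 v)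
        = fun v => ∃ i, v (x i) ∧ (f i v ∧ g i v) := by
      funext v; simp
    rw [← e]
    exact List.mem_cons_self
  · rw [List.length_cons]; omega

end ustep

/-- substitution of variables -/
theorem UC.sub {X Y : Type} (e : X → Y) {L : List (ℕ × ((X → Prop) → Prop))} (hL : UC L) :
    UC (L.map fun p => (p.1, fun v : Y → Prop => p.2 (fun x => v (e x)))) := by
  induction hL with
  | nil => exact UC.nil
  | cst p L _ ih => exact UC.cst p _ ih
  | var x L _ ih => exact UC.var (e x) _ ih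
  | and d S L hS _ ih =>
    have h := UC.and d (S.map fun p => (p.1, fun v : Y → Prop => p.2 (fun x => v (e x)))) _ (by
      intro p hp
      rw [List.mem_map] at hp
      obtain ⟨p', hp', rfl⟩ := hp
      exact ⟨List.mem_map_of_mem (hS p' hp').1, (hS p' hp').2⟩) ih
    have e1 : (fun v : Y → Prop => ∀ p ∈ S.map fun p => (p.1, fun v : Y → Prop =>
        p.2 (fun x => v (e x))), p.2 v) = fun v => ∀ p ∈ S, p.2 (fun x => v (e x)) := by
      funext v
      apply propext
      constructor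
      · intro h p hp
        exact h _ (List.mem_map_of_mem hp)
      · intro h p hp
        obtain ⟨p', hp', rfl⟩ := List.mem_map.1 hp
        exact h p' hp'
    rw [e1] at h
    exact h
  | or d S L hS _ ih =>
    have h := UC.or d (S.map fun p => (p.1, fun v : Y → Prop => p.2 (fun x => v (e x)))) _ (by
      intro p hp
      rw [List.mem_map] at hp
      obtain ⟨p', hp', rfl⟩ := hp
      exact ⟨List.mem_map_of_mem (hS p' hp').1, (hS p' hp').2⟩) ih
    have e1 : (fun v : Y → Prop => ∃ p ∈ S.map fun p => (p.1, fun v : Y → Prop =>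
        p.2 (fun x => v (e x))), p.2 v) = fun v => ∃ p ∈ S, p.2 (fun x => v (e x)) := by
      funext v; simp
    rw [e1] at h
    exact h

section pyr

variable {M h q : ℕ}

/-- all gates of the level `k` -/
def ULev (k : ℕ) : Set (ℕ × ((PVar M h q → Prop) → Prop)) :=
  {f | ∃ (i : Fin (h + 1)) (z : Fin M × Fin (h + 1) × Fin q), i.val = k ∧
    f = (2 * k, LevelFn i z)}

theorem ulevel_succ (i : Fin h) (B : Set (ℕ × ((PVar M h q → Prop) → Prop)))
    (hB : ∀ z, (2 * i.val, LevelFn i.castSucc z) ∈ B) (z : Fin M × Fin (h + 1) × Fin q) :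
    UStep B {(2 * (i.val + 1), LevelFn i.succ z)} (2 * q ^ 2 + 1) := by
  obtain ⟨b, j, u⟩ := z
  induction j using Fin.lastCases with
  | last =>
    have h1 : LevelFn i.succ (b, Fin.last h, u) = fun v => ∃ p ∈ ([] : List (ℕ ×
        ((PVar M h q → Prop) → Prop))), p.2 v := by
      funext v
      apply propext
      constructor
      · intro hd; exact absurd hd (der_last v b i u)
      · rintro ⟨p, hp, -⟩; exact absurd hp List.not_mem_nil
    rw [h1]
    intro L hL _
    refine ⟨_, UC.or (2 * (i.val + 1)) [] L (by simp) hL,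
      fun p hp => List.mem_cons_of_mem _ hp, ?_, by rw [List.length_cons]; omega⟩
    rintro p rfl
    exact List.mem_cons_self
  | cast j =>
    have h1 : LevelFn i.succ (b, j.castSucc, u) = fun v => ∃ w : Fin q × Fin q,
        v (.rl b i j w.1 w.2 u) ∧ (LevelFn i.castSucc (b, j.castSucc, w.1) v ∧
          LevelFn i.castSucc (b, j.succ, w.2) v) := by
      funext v
      exact propext (der_succ v b i j u)
    rw [h1]
    have h2 := ustep_ex (B := B) (fun w : Fin q × Fin q => PVar.rl b i j w.1 w.2 u)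
      (fun w => LevelFn i.castSucc (b, j.castSucc, w.1))
      (fun w => LevelFn i.castSucc (b, j.succ, w.2)) (2 * i.val)
      (fun w => hB _) (fun w => hB _)
    refine h2.mono_n (le_of_eq ?_)
    rw [Fintype.card_prod, Fintype.card_fin]; ring

theorem ulevels (k : ℕ) (hk : k ≤ h) :
    UStep (X := PVar M h q) ∅ (ULev k) (M * (h + 1) * q * (1 + k * (2 * q ^ 2 + 1))) := by
  induction k with
  | zero =>
    have h1 := ustep_fin (B := (∅ : Set (ℕ × ((PVar M h q → Prop) → Prop)))) (n := 1)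
      (fun z : Fin M × Fin (h + 1) × Fin q => (0, LevelFn 0 z)) (fun z => by
        have h1 : LevelFn 0 z = fun v => v (.ax z.1 z.2.1 z.2.2) := by
          funext v
          exact propext (der_zero v z.1 z.2.1 z.2.2)
        rw [h1]
        exact ustep_var _)
    have h2 : ULev (M := M) (h := h) (q := q) 0 ⊆ {f | ∃ z, f = (0, LevelFn 0 z)} := by
      rintro f ⟨i, z, hi, rfl⟩
      have : i = 0 := Fin.ext hi
      subst this
      exact ⟨z, rfl⟩
    refine (h1.mono_A h2).mono_n (le_of_eq ?_)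
    rw [Fintype.card_prod, Fintype.card_prod, Fintype.card_fin, Fintype.card_fin,
      Fintype.card_fin]
    ring
  | succ k ih =>
    have h0 := ih (by omega)
    have h1 := ustep_fin (B := ULev k ∪ (∅ : Set (ℕ × ((PVar M h q → Prop) → Prop))))
      (n := 2 * q ^ 2 + 1)
      (fun z : Fin M × Fin (h + 1) × Fin q => (2 * (k + 1), LevelFn (⟨k, hk⟩ : Fin h).succ z))
      (fun z => ulevel_succ ⟨k, hk⟩ _ (fun z' => Or.inl ⟨_, z', rfl, rfl⟩) z)
    have h2 : ULev (M := M) (h := h) (q := q) (k + 1) ⊆ ULev k ∪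
        {f | ∃ z, f = (2 * (k + 1), LevelFn (⟨k, hk⟩ : Fin h).succ z)} := by
      rintro f ⟨i, z, hi, rfl⟩
      have : i = (⟨k, hk⟩ : Fin h).succ := Fin.ext hi
      subst this
      exact Or.inr ⟨z, rfl⟩
    refine ((h0.trans h1).mono_A h2).mono_n (le_of_eq ?_)
    rw [Fintype.card_prod, Fintype.card_prod, Fintype.card_fin, Fintype.card_fin,
      Fintype.card_fin]
    ring

/-- **Upper bound**: monotone circuits of unbounded fan-in and depth `2 h + 2`. -/
theorem pyr_ucirc (hh : 1 ≤ h) (hq : 1 ≤ q) :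
    ∃ L : List (ℕ × ((PVar M h q → Prop) → Prop)),
    UC L ∧ (2 * h + 2, PyrFn) ∈ L ∧ L.length ≤ 4 * (M * (h + 1) ^ 2 * q ^ 3) + 1 := by
  have h1 : UStep (X := PVar M h q) (ULev h ∪ ∅) {(2 * h + 2, PyrFn)} (2 * (M * q) + 1) := by
    have e : (PyrFn : (PVar M h q → Prop) → Prop) = fun v => ∃ z : Fin M × Fin q,
        v (.gl z.1 z.2) ∧ (LevelFn (Fin.last h) (z.1, 0, z.2) v ∧
          LevelFn (Fin.last h) (z.1, 0, z.2) v) := by
      funext v
      apply propext
      constructor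
      · rintro ⟨b, u, h1, h2⟩; exact ⟨(b, u), h1, h2, h2⟩
      · rintro ⟨z, h1, h2, -⟩; exact ⟨z.1, z.2, h1, h2⟩
    rw [e]
    have h2 := ustep_ex (B := ULev h ∪ (∅ : Set (ℕ × ((PVar M h q → Prop) → Prop))))
      (fun z : Fin M × Fin q => PVar.gl z.1 z.2)
      (fun z => LevelFn (Fin.last h) (z.1, 0, z.2))
      (fun z => LevelFn (Fin.last h) (z.1, 0, z.2)) (2 * h)
      (fun z => Or.inl ⟨Fin.last h, _, rfl, rfl⟩) (fun z => Or.inl ⟨Fin.last h, _, rfl, rfl⟩)
    refine h2.mono_n (le_of_eq ?_)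
    rw [Fintype.card_prod, Fintype.card_fin, Fintype.card_fin]
  have h2 := (ulevels (M := M) (h := h) (q := q) h le_rfl).trans h1
  obtain ⟨L, a1, -, a3, a4⟩ := h2 [] UC.nil (by simp)
  refine ⟨L, a1, a3 _ (Or.inr rfl), a4.trans ?_⟩
  rw [List.length_nil]
  have h4 : 1 ≤ q * q := Nat.mul_le_mul hq hq
  have h5 : (h + 1) * (1 + h * (2 * q ^ 2 + 1)) + 2 ≤ 4 * ((h + 1) ^ 2 * q ^ 2) := by
    have e1 : (h + 1) * (1 + h * (2 * q ^ 2 + 1)) + 2
        = 2 * h * (h + 1) * (q * q) + ((h + 1) * (h + 1) + 2) := by ring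
    have e2 : 4 * ((h + 1) ^ 2 * q ^ 2) = 2 * h * (h + 1) * (q * q)
        + (2 * (h + 1) * (h + 2)) * (q * q) := by
      ring
    rw [e1, e2]
    have e4 : 2 * (h + 1) * (h + 2) ≤ (2 * (h + 1) * (h + 2)) * (q * q) :=
      Nat.le_mul_of_pos_right _ (by omega)
    have e5 : (h + 1) * (h + 1) + 2 ≤ 2 * (h + 1) * (h + 2) := by nlinarith
    omega
  calc 0 + (M * (h + 1) * q * (1 + h * (2 * q ^ 2 + 1)) + (2 * (M * q) + 1))
      = M * q * ((h + 1) * (1 + h * (2 * q ^ 2 + 1)) + 2) + 1 := by ring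
    _ ≤ M * q * (4 * ((h + 1) ^ 2 * q ^ 2)) + 1 :=
        Nat.add_le_add_right (Nat.mul_le_mul_left _ h5) 1
    _ = 4 * (M * (h + 1) ^ 2 * q ^ 3) + 1 := by ring

end pyr

end H198R2.CC
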