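import Pool.Agent.H198R2.CC.Pyr
import Pool.Agent.H198R2.CC.UCirc

/-!
# Computations in rounds, hosts, circuits with NOT gates
-/

set_option linter.unusedSectionVars false

namespace H198R2.CC

open Finset Relation H534R2.Gen

section flat

variable {X : Type}

open Classical in
/-- the computation tree of the rounds `d - r, …, d - 1` followed by the output circuit -/
noncomputable def uflatTree (d : ℕ) (w : ℕ → ℕ) (N : ℕ → ℕ → (ℕ → ℕ → Prop) → CNet X) :
    ℕ → (ℕ → ℕ → Prop) → CTree X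
  | 0, A => .out (N d 0 A)
  | r + 1, A => .ask (w (d - (r + 1))) (fun k => N (d - (r + 1)) k A)
      (fun a => uflatTree d w N r
        (fun j k => if j = d - (r + 1) then ∃ h : k < w (d - (r + 1)), a ⟨k, h⟩ = true
          else A j k))

/-- the tables agree on the first `i` rounds -/
def UAgr (w : ℕ → ℕ) (i : ℕ) (A A' : ℕ → ℕ → Prop) : Prop :=
  ∀ j < i, ∀ k < w j, (A j k ↔ A' j k)

/-- the circuits of a round depend on the answers of the earlier rounds only -/
def UCausal (w : ℕ → ℕ) (N : ℕ → ℕ → (ℕ → ℕ → Prop) → CNet X) : Prop :=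
  ∀ i k A A', UAgr w i A A' → N i k A = N i k A'

variable {d : ℕ} {w : ℕ → ℕ} {N : ℕ → ℕ → (ℕ → ℕ → Prop) → CNet X}

theorem uflat_eval (hN : UCausal w N) (v : X → Prop) (A' : ℕ → ℕ → Prop)
    (hA' : ∀ i < d, ∀ k < w i, (A' i k ↔ (N i k A').Accepts v)) (r : ℕ) :
    r ≤ d → ∀ A, UAgr w (d - r) A A' →
      ((uflatTree d w N r A).eval v ↔ (N d 0 A').Accepts v) := by
  classical
  induction r with
  | zero =>
    intro _ A hA
    show (N d 0 A).Accepts v ↔ _
    rw [hN d 0 A A' (by simpa using hA)]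
  | succ r ih =>
    intro hr A hA
    show (uflatTree d w N r (fun j k => if j = d - (r + 1) then ∃ h : k < w (d - (r + 1)),
      ans (fun k : Fin (w (d - (r + 1))) => N (d - (r + 1)) k A) v ⟨k, h⟩ = true
      else A j k)).eval v ↔ _
    apply ih (by omega)
    intro j hj k hk
    beta_reduce
    by_cases hji : j = d - (r + 1)
    · subst hji
      rw [if_pos rfl, hA' _ (by omega) k hk, ← hN _ k A A' hA]
      unfold ans
      simp only [decide_eq_true_eq]
      exact ⟨fun ⟨_, h2⟩ => h2, fun h => ⟨hk, h⟩⟩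
    · rw [if_neg hji]
      exact hA j (by omega) k hk

theorem uflat_cost (r : ℕ) : r ≤ d → ∀ A,
    (uflatTree d w N r A).cost ≤ ∏ i ∈ Finset.Ico (d - r) d, (w i + 1) := by
  classical
  induction r with
  | zero => intro _ A; simp [uflatTree, CTree.cost]
  | succ r ih =>
    intro hr A
    have h1 : d - (r + 1) < d := by omega
    have h2 : d - (r + 1) + 1 = d - r := by omega
    rw [Finset.prod_eq_prod_Ico_succ_bot h1, h2]
    show (w (d - (r + 1)) + 1) * Finset.univ.sup _ ≤ _
    apply Nat.mul_le_mul_left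
    apply Finset.sup_le
    intro a _
    exact ih (by omega) _

theorem uflat_load (hN : UCausal w N) (r : ℕ) : r ≤ d → ∀ A B,
    (∀ A', UAgr w (d - r) A A' → (∑ i ∈ Finset.Ico (d - r) d, ∑ k ∈ Finset.range (w i),
      (N i k A').wires) + (N d 0 A').wires ≤ B) → (uflatTree d w N r A).load ≤ B := by
  classical
  induction r with
  | zero =>
    intro _ A B hB
    have := hB A (fun _ _ _ _ => Iff.rfl)
    simpa [uflatTree, CTree.load] using this
  | succ r ih =>
    intro hr A B hB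
    have h1 : d - (r + 1) < d := by omega
    have h2 : d - (r + 1) + 1 = d - r := by omega
    have hsum : ∀ A', (∑ i ∈ Finset.Ico (d - (r + 1)) d, ∑ k ∈ Finset.range (w i),
        (N i k A').wires) = (∑ i ∈ Finset.Ico (d - r) d, ∑ k ∈ Finset.range (w i),
          (N i k A').wires) + ∑ k ∈ Finset.range (w (d - (r + 1))),
            (N (d - (r + 1)) k A').wires := by
      intro A'
      rw [Finset.sum_eq_sum_Ico_succ_bot h1, h2, add_comm]
    obtain ⟨S, hS⟩ : ∃ S, S = ∑ k ∈ Finset.range (w (d - (r + 1))),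
      (N (d - (r + 1)) k A).wires := ⟨_, rfl⟩
    have hSA : ∀ A', UAgr w (d - (r + 1)) A A' → (∑ k ∈ Finset.range (w (d - (r + 1))),
        (N (d - (r + 1)) k A').wires) = S := by
      intro A' hA'
      rw [hS]
      refine Finset.sum_congr rfl fun k _ => ?_
      rw [hN _ k A A' hA']
    have hSB : S ≤ B := by
      have h3 := hB A (fun _ _ _ _ => Iff.rfl)
      rw [hsum A, hSA A (fun _ _ _ _ => Iff.rfl)] at h3
      omega
    show (∑ k : Fin (w (d - (r + 1))), (N (d - (r + 1)) k A).wires) +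
      Finset.univ.sup _ ≤ B
    have h4 : (∑ k : Fin (w (d - (r + 1))), (N (d - (r + 1)) k A).wires) = S := by
      rw [hS, Finset.sum_range]
    rw [h4]
    have h5 : Finset.univ.sup (fun a : Fin (w (d - (r + 1))) → Bool =>
        (uflatTree d w N r (fun j k => if j = d - (r + 1) then
          ∃ h : k < w (d - (r + 1)), a ⟨k, h⟩ = true else A j k)).load) ≤ B - S := by
      apply Finset.sup_le
      intro a _
      apply ih (by omega)
      intro A' hA'
      have hAA' : UAgr w (d - (r + 1)) A A' := by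
        intro j hj k hk
        have h6 := hA' j (by omega) k hk
        have h7 : ¬ (j = d - (r + 1)) := by omega
        simp only [if_neg h7] at h6
        exact h6
      have h3 := hB A' hAA'
      rw [hsum A', hSA A' hAA'] at h3
      omega
    exact (Nat.add_le_add_left h5 S).trans (by omega)

end flat


/-- **Lower bound for path systems**, host version. -/
theorem host_full (h M : ℕ) (hh : 1 ≤ h) (V : Type) [Fintype V] (t : V)
    (hV : 2 * M * (h + 1) ^ 4 + 1 ≤ Fintype.card V) :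
    ∃ H : PS V → Prop, {x : PS V | H x}.ncard ≤ 8 * M * (h + 1) ^ 8 ∧
      (∃ L : List ((PS V → Prop) → Prop), MC L ∧ L.length ≤ 32 * M * (h + 1) ^ 8 + 1 ∧
        ∃ f ∈ L, ∀ v : PS V → Prop, (∀ x, v x → H x) → (f v ↔ Solv v t)) ∧
      (∃ L : List (ℕ × ((PS V → Prop) → Prop)), UC L ∧ L.length ≤ 32 * M * (h + 1) ^ 8 + 1 ∧
        ∃ f, (2 * h + 2, f) ∈ L ∧ ∀ v : PS V → Prop, (∀ x, v x → H x) → (f v ↔ Solv v t)) ∧
      ∀ T : CTree (PS V), T.load ≤ 2 ^ h →
        (∀ v : PS V → Prop, (∀ x, v x → H x) → (T.eval v ↔ Solv v t)) →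
        M + 1 ≤ T.cost := by
  classical
  obtain ⟨q, hq⟩ : ∃ q, q = 2 * (h + 1) ^ 2 := ⟨_, rfl⟩
  have hcard : Fintype.card (Option (Fin M × Pos h × Fin q)) ≤ Fintype.card V := by
    rw [Fintype.card_option, Fintype.card_prod, Fintype.card_prod, Fintype.card_prod,
      Fintype.card_fin, Fintype.card_fin, Fintype.card_fin]
    refine le_trans (le_of_eq ?_) hV
    rw [hq]; ring
  have hcard' : Fintype.card (Fin M × Pos h × Fin q) ≤
      Fintype.card {x : V // x ≠ t} := by
    rw [Fintype.card_option] at hcard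
    have : Fintype.card {x : V // x ≠ t} = Fintype.card V - 1 := by
      rw [Fintype.card_subtype_compl]
      simp
    omega
  obtain ⟨e⟩ := Function.Embedding.nonempty_of_card_le hcard'
  let f : Option (Fin M × Pos h × Fin q) → V := fun z => match z with
    | none => t
    | some y => (e y).1
  have hf : Function.Injective f := by
    rintro (_ | y) (_ | y') heq
    · rfl
    · exact absurd heq.symm (e y').2
    · exact absurd heq (e y).2
    · have : e y = e y' := Subtype.ext heq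
      rw [e.injective this]
  have h12 : h + 1 ≤ (h + 1) ^ 2 := Nat.le_self_pow (by norm_num) _
  have himg : ∀ v : PS V → Prop, (∀ x, v x → ∃ y, emb f y = x) →
      Img (emb f) (fun x => v (emb f x)) = v := by
    intro v hv
    funext y
    apply propext
    constructor
    · rintro ⟨x, hx, rfl⟩; exact hx
    · intro hy
      obtain ⟨x, rfl⟩ := hv y hy
      exact ⟨x, hy, rfl⟩
  refine ⟨fun y => ∃ x, emb f x = y, ?_, ?_, ?_, ?_⟩
  · refine (emb_card (by omega) (by omega) f).trans (le_of_eq ?_)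
    rw [hq]; ring
  · obtain ⟨L, h1, h2, h3⟩ := pyr_circuit (M := M) (h := h) (q := q) (by omega) (by omega)
    refine ⟨_, MC.sub (emb f) h1, ?_, _, List.mem_map_of_mem h2, ?_⟩
    · rw [List.length_map]
      refine h3.trans (le_of_eq ?_)
      rw [hq]; ring
    · intro v hv
      rw [← emb_solv f hf, himg v hv]
  · obtain ⟨L, h1, h2, h3⟩ := pyr_ucirc (M := M) (h := h) (q := q) (by omega) (by omega)
    refine ⟨_, UC.sub (emb f) h1, ?_, _, List.mem_map_of_mem h2, ?_⟩
    · rw [List.length_map]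
      refine h3.trans (le_of_eq ?_)
      rw [hq]; ring
    · intro v hv
      show PyrFn (fun x => v (emb f x)) ↔ Solv v t
      rw [← emb_solv f hf, himg v hv]
  · intro T hload hT
    have hb := pyr_bound (M := M) hq (T.pull (emb f)) (by
      rw [CTree.pull_load]; exact hload) (by
      intro v
      rw [CTree.pull_eval (emb_inj hf), hT, ← emb_solv f hf]
      rintro x ⟨y, -, rfl⟩
      exact ⟨y, rfl⟩)
    rwa [CTree.pull_cost] at hb

/-- **Host version**, in rounds. -/
theorem rounds_host (h M : ℕ) (hh : 1 ≤ h) (V : Type) [Fintype V] (t : V)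
    (hV : 2 * M * (h + 1) ^ 4 + 1 ≤ Fintype.card V) :
    ∃ H : PS V → Prop, {x : PS V | H x}.ncard ≤ 8 * M * (h + 1) ^ 8 ∧
      (∃ L : List ((PS V → Prop) → Prop), MC L ∧ L.length ≤ 32 * M * (h + 1) ^ 8 + 1 ∧
        ∃ f ∈ L, ∀ v : PS V → Prop, (∀ x, v x → H x) → (f v ↔ Solv v t)) ∧
      (∃ L : List (ℕ × ((PS V → Prop) → Prop)), UC L ∧ L.length ≤ 32 * M * (h + 1) ^ 8 + 1 ∧
        ∃ f, (2 * h + 2, f) ∈ L ∧ ∀ v : PS V → Prop, (∀ x, v x → H x) → (f v ↔ Solv v t)) ∧
      ∀ (d : ℕ) (w : ℕ → ℕ) (N : ℕ → ℕ → (ℕ → ℕ → Prop) → CNet (PS V)),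
        (∀ i k A A', (∀ j < i, ∀ k' < w j, (A j k' ↔ A' j k')) → N i k A = N i k A') →
        (∀ A, (∑ i ∈ Finset.range d, ∑ k ∈ Finset.range (w i), (N i k A).wires)
          + (N d 0 A).wires ≤ 2 ^ h) →
        (∀ v : PS V → Prop, (∀ x, v x → H x) → ∃ A : ℕ → ℕ → Prop,
          (∀ i < d, ∀ k < w i, (A i k ↔ (N i k A).Accepts v)) ∧
          ((N d 0 A).Accepts v ↔ Solv v t)) →
        M + 1 ≤ ∏ i ∈ Finset.range d, (w i + 1) := by
  obtain ⟨H, h1, h2, h2', h3⟩ := host_full h M hh V t hV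
  refine ⟨H, h1, h2, h2', ?_⟩
  intro d w N hN hsize hdec
  have h4 := h3 (uflatTree d w N d (fun _ _ => True)) (by
    apply uflat_load hN d le_rfl
    intro A' _
    rw [Nat.sub_self, ← Finset.range_eq_Ico]
    exact hsize A') (by
    intro v hv
    obtain ⟨A, hA, hv⟩ := hdec v hv
    rw [uflat_eval hN v A hA d le_rfl _ (by rw [Nat.sub_self]; intro j hj; omega), hv])
  have h5 := h4.trans (uflat_cost d le_rfl _)
  rwa [Nat.sub_self, ← Finset.range_eq_Ico] at h5

/-- **Circuits in rounds**: at most `2 ^ ℓ` wires. -/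
theorem rounds_bound (ℓ d : ℕ) (w : ℕ → ℕ) (V : Type) [Fintype V] (t : V)
    (N : ℕ → ℕ → (ℕ → ℕ → Prop) → CNet (PS V))
    (hN : ∀ i k A A', (∀ j < i, ∀ k' < w j, (A j k' ↔ A' j k')) → N i k A = N i k A')
    (hsize : ∀ A, (∑ i ∈ Finset.range d, ∑ k ∈ Finset.range (w i), (N i k A).wires)
      + (N d 0 A).wires ≤ 2 ^ ℓ)
    (hdec : ∀ v : PS V → Prop, ∃ A : ℕ → ℕ → Prop,
      (∀ i < d, ∀ k < w i, (A i k ↔ (N i k A).Accepts v)) ∧
      ((N d 0 A).Accepts v ↔ Solv v t)) :
    Fintype.card V ≤ 2 * (ℓ + 2) ^ 4 * ∏ i ∈ Finset.range d, (w i + 1) := by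
  obtain ⟨B, hB⟩ : ∃ B, B = 2 * (ℓ + 2) ^ 4 := ⟨_, rfl⟩
  obtain ⟨M, hM⟩ : ∃ M, M = (Fintype.card V - 1) / B := ⟨_, rfl⟩
  have hpos : 0 < B := by rw [hB]; positivity
  have hV : 1 ≤ Fintype.card V := Fintype.card_pos_iff.2 ⟨t⟩
  have h1 : M * B ≤ Fintype.card V - 1 := by rw [hM]; exact Nat.div_mul_le_self _ _
  have h2 : Fintype.card V - 1 < (M + 1) * B := by
    rw [hM]
    have := Nat.lt_mul_div_succ (Fintype.card V - 1) hpos
    rw [mul_comm]; exact this
  obtain ⟨H, -, -, -, hH⟩ := rounds_host (ℓ + 1) M (by omega) V t (by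
    have : 2 * M * (ℓ + 1 + 1) ^ 4 = M * B := by rw [hB]; ring
    omega)
  have h3 := hH d w N hN (by
    intro A
    refine (hsize A).trans ?_
    exact Nat.pow_le_pow_right (by norm_num) (by omega)) (fun v _ => hdec v)
  rw [← hB]
  have h5 : (M + 1) * B ≤ (∏ i ∈ Finset.range d, (w i + 1)) * B := Nat.mul_le_mul_right _ h3
  rw [mul_comm B]
  omega

end H198R2.CC
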