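import Pool.Agent.H198R2.CC.Pot
import Pool.Agent.H534R2.GenMain

/-!
# The pebbling matrix

Rows are choices `g`, columns are cuts `C`; the entry is the number modulo 2 of the
configurations that are reachable with `K` pebbles and contain all `x` with `C x (g x) = true`.
-/

set_option linter.unusedSectionVars false

namespace H198R2.CC

open Finset Relation H534R2.Gen

section matrix

variable {ι : Type} [Fintype ι] [DecidableEq ι] {q K : ℕ}

open Classical in
/-- the reachable configurations -/
noncomputable def Rch (R : Finset ι → ι → Prop) (K : ℕ) : Finset (Finset ι) :=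
  Finset.univ.filter (fun T => PR R K T)

theorem mem_Rch {R : Finset ι → ι → Prop} {T : Finset ι} : T ∈ Rch R K ↔ PR R K T := by
  classical
  unfold Rch
  rw [Finset.mem_filter]
  simp

theorem PR_card {R : Finset ι → ι → Prop} {T : Finset ι} (h : PR R K T) : T.card ≤ K := by
  have key : ∀ S T : Finset ι, EqvGen (Mv R K) S T → (S.card ≤ K ↔ T.card ≤ K) := by
    intro S T hST
    induction hST with
    | rel x y hxy =>
      obtain ⟨A, z, -, -, -, rfl, h2⟩ := hxy
      exact ⟨fun _ => h2, fun _ => (Finset.card_le_card (Finset.subset_insert _ _)).trans h2⟩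
    | refl => exact Iff.rfl
    | symm _ _ _ ih => exact ih.symm
    | trans _ _ _ _ _ ih1 ih2 => exact ih1.trans ih2
  exact (key _ _ h).1 (by simp)

open Classical in
/-- the term of the configuration `T` -/
noncomputable def term (T : Finset ι) (C : Cuts ι q) (g : ι → Fin q) : ZMod 2 :=
  if ∀ x, x ∉ T → C x (g x) = false then 1 else 0

/-- the pebbling matrix -/
noncomputable def PM (R : Finset ι → ι → Prop) (K : ℕ) (C : Cuts ι q) (g : ι → Fin q) : ZMod 2 :=
  ∑ T ∈ Rch R K, term T C g

/-! ### full rank -/

open Classical in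
/-- agreement outside `T` -/
noncomputable def JJ (T : Finset ι) (g b : ι → Fin q) : ZMod 2 :=
  if ∀ x, x ∉ T → g x = b x then 1 else 0

/-- the cut that is false only at `b` -/
def cutOf (b : ι → Fin q) : Cuts ι q := fun x u => decide (u ≠ b x)

theorem term_cutOf (T : Finset ι) (b g : ι → Fin q) : term T (cutOf b) g = JJ T g b := by
  classical
  unfold term JJ cutOf
  simp

theorem JJ_comm (S T : Finset ι) (g g' : ι → Fin q) :
    ∑ b, JJ S g b * JJ T b g' = ∑ b, JJ T g b * JJ S b g' := by
  classical
  let e : (ι → Fin q) ≃ (ι → Fin q) :=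
    { toFun := fun b x => Equiv.swap (g x) (g' x) (b x)
      invFun := fun b x => Equiv.swap (g x) (g' x) (b x)
      left_inv := by intro b; funext x; simp
      right_inv := by intro b; funext x; simp }
  rw [← Equiv.sum_comp e (fun b => JJ T g b * JJ S b g')]
  refine Finset.sum_congr rfl fun b _ => ?_
  have h1 : JJ S g b = JJ S (e b) g' := by
    unfold JJ
    congr 1
    apply propext
    refine forall_congr' fun x => imp_congr_right fun _ => ?_
    show g x = b x ↔ Equiv.swap (g x) (g' x) (b x) = g' x
    constructor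
    · intro h; rw [← h, Equiv.swap_apply_left]
    · intro h
      have := congrArg (Equiv.swap (g x) (g' x)) h
      rw [Equiv.swap_apply_self, Equiv.swap_apply_right] at this
      exact this.symm
  have h2 : JJ T b g' = JJ T g (e b) := by
    unfold JJ
    congr 1
    apply propext
    refine forall_congr' fun x => imp_congr_right fun _ => ?_
    show b x = g' x ↔ g x = Equiv.swap (g x) (g' x) (b x)
    constructor
    · intro h; rw [h, Equiv.swap_apply_right]
    · intro h
      have := congrArg (Equiv.swap (g x) (g' x)) h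
      rw [Equiv.swap_apply_self, Equiv.swap_apply_left] at this
      exact this.symm
  rw [h1, h2, mul_comm]

theorem JJ_sq (hq : Even q) {T : Finset ι} (hT : T.Nonempty) (g g' : ι → Fin q) :
    ∑ b, JJ T g b * JJ T b g' = 0 := by
  classical
  obtain ⟨x0, hx0⟩ := hT
  refine Finset.sum_involution (fun b _ => Function.update b x0 (Fin.rev (b x0))) ?_ ?_ ?_ ?_
  · intro b _
    have h1 : JJ T g (Function.update b x0 (Fin.rev (b x0))) = JJ T g b := by
      unfold JJ
      congr 1
      apply propext
      refine forall_congr' fun x => imp_congr_right fun hx => ?_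
      have : x ≠ x0 := fun h => hx (h ▸ hx0)
      rw [Function.update_of_ne this]
    have h2 : JJ T (Function.update b x0 (Fin.rev (b x0))) g' = JJ T b g' := by
      unfold JJ
      congr 1
      apply propext
      refine forall_congr' fun x => imp_congr_right fun hx => ?_
      have : x ≠ x0 := fun h => hx (h ▸ hx0)
      rw [Function.update_of_ne this]
    rw [h1, h2]
    exact CharTwo.add_self_eq_zero _
  · intro b _ _ h
    have h1 := congrFun h x0
    rw [Function.update_self] at h1
    have h2 := congrArg Fin.val h1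
    rw [Fin.val_rev] at h2
    have h3 := (b x0).2
    obtain ⟨k, hk⟩ := hq
    omega
  · intro b _; exact Finset.mem_univ _
  · intro b _
    simp

theorem JJ_empty (g g' : ι → Fin q) :
    ∑ b, JJ (∅ : Finset ι) g b * JJ ∅ b g' = if g = g' then 1 else 0 := by
  classical
  have h1 : ∀ a b : ι → Fin q, JJ (∅ : Finset ι) a b = if a = b then 1 else 0 := by
    intro a b
    unfold JJ
    congr 1
    apply propext
    constructor
    · intro h; funext x; exact h x (Finset.notMem_empty x)
    · intro h x _; rw [h]
  simp only [h1]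
  simp

/-- a symmetric sum in characteristic 2 is the sum over the diagonal -/
theorem sum_sym {α : Type} [DecidableEq α] (s : Finset α) (f : α → α → ZMod 2)
    (hf : ∀ a b, f a b = f b a) : ∑ a ∈ s, ∑ b ∈ s, f a b = ∑ a ∈ s, f a a := by
  rw [← Finset.sum_product', ← Finset.diag_union_offDiag s,
    Finset.sum_union (Finset.disjoint_diag_offDiag s), Finset.sum_diag]
  have : ∑ x ∈ s.offDiag, f x.1 x.2 = 0 := by
    refine Finset.sum_involution (fun x _ => (x.2, x.1)) ?_ ?_ ?_ ?_
    · intro x _
      show f x.1 x.2 + f x.2 x.1 = 0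
      rw [hf x.2 x.1]
      exact CharTwo.add_self_eq_zero _
    · intro x hx _ h
      rw [Finset.mem_offDiag] at hx
      exact hx.2.2 (congrArg Prod.fst h).symm
    · intro x hx
      rw [Finset.mem_offDiag] at hx ⊢
      exact ⟨hx.2.1, hx.1, fun h => hx.2.2 h.symm⟩
    · intro x _; rfl
  rw [this, add_zero]

theorem PM_sq (hq : Even q) (R : Finset ι → ι → Prop) (K : ℕ) (g g' : ι → Fin q) :
    ∑ b, PM R K (cutOf b) g * PM R K (cutOf g') b = if g = g' then 1 else 0 := by
  classical
  unfold PM
  simp only [term_cutOf]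
  simp_rw [Finset.sum_mul_sum]
  rw [Finset.sum_comm]
  have h1 : ∀ S ∈ Rch R K, ∑ b : ι → Fin q, ∑ T ∈ Rch R K, JJ S g b * JJ T b g'
      = ∑ T ∈ Rch R K, ∑ b, JJ S g b * JJ T b g' := fun S _ => Finset.sum_comm
  rw [Finset.sum_congr rfl h1, sum_sym (Rch R K) (fun S T => ∑ b, JJ S g b * JJ T b g')
    (fun S T => JJ_comm S T g g'), Finset.sum_eq_single ∅]
  · exact JJ_empty g g'
  · intro T _ hT
    exact JJ_sq hq (Finset.nonempty_iff_ne_empty.2 hT) g g'
  · intro h
    exact absurd (mem_Rch.2 (EqvGen.refl _)) h

theorem PM_span (hq : Even q) (R : Finset ι → ι → Prop) (K : ℕ) :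
    Submodule.span (ZMod 2) (Set.range (PM (q := q) R K)) = ⊤ := by
  classical
  rw [eq_top_iff]
  intro f _
  have h1 : f = ∑ g', f g' • ∑ b, PM R K (cutOf g') b • PM R K (cutOf b) := by
    funext g
    simp only [Finset.sum_apply, Pi.smul_apply, smul_eq_mul]
    have : ∀ g' : ι → Fin q, ∑ b, PM R K (cutOf g') b * PM R K (cutOf b) g
        = if g = g' then 1 else 0 := by
      intro g'
      rw [← PM_sq hq R K g g']
      refine Finset.sum_congr rfl fun b _ => mul_comm _ _
    simp only [this]
    simp
  rw [h1]
  refine Submodule.sum_mem _ fun g' _ => Submodule.smul_mem _ _ ?_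
  refine Submodule.sum_mem _ fun b _ => Submodule.smul_mem _ _ ?_
  exact Submodule.subset_span ⟨cutOf b, rfl⟩

/-! ### small rank on the rectangles of the rules -/

theorem term_eq_zero {T : Finset ι} {C : Cuts ι q} {g : ι → Fin q} {x : ι} (hx : x ∉ T)
    (h : C x (g x) = true) : term T C g = 0 := by
  unfold term
  rw [if_neg]
  intro h'
  rw [h' x hx] at h
  exact Bool.noConfusion h

/-- the configurations that survive on the rectangle of the rule `A → y` -/
noncomputable def Sv (R : Finset ι → ι → Prop) (K : ℕ) (A : Finset ι) (y : ι) :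
    Finset (Finset ι) := (Rch R K).filter (fun T => A ⊆ T ∧ y ∉ T ∧ T.card = K)

theorem PM_rule {R : Finset ι → ι → Prop} {A : Finset ι} {y : ι} (hR : R A y) (hyA : y ∉ A)
    (C : Cuts ι q) (g : ι → Fin q) (hA : ∀ x ∈ A, C x (g x) = true) (hy : C y (g y) = false) :
    PM R K C g = ∑ T ∈ Sv R K A y, term T C g := by
  classical
  have h1 : PM R K C g = ∑ T ∈ (Rch R K).filter (fun T => A ⊆ T), term T C g := by
    unfold PM
    rw [Finset.sum_filter]
    refine Finset.sum_congr rfl fun T _ => ?_
    split_ifs with h
    · rfl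
    · rw [Finset.not_subset] at h
      obtain ⟨x, hx, hxT⟩ := h
      exact term_eq_zero hxT (hA x hx)
  rw [h1, ← Finset.sum_filter_add_sum_filter_not ((Rch R K).filter (fun T => A ⊆ T))
    (fun T => y ∉ T ∧ T.card = K), Finset.filter_filter]
  have h2 : ∑ T ∈ ((Rch R K).filter (fun T => A ⊆ T)).filter
      (fun T => ¬ (y ∉ T ∧ T.card = K)), term T C g = 0 := by
    refine Finset.sum_involution (fun T _ => if y ∈ T then T.erase y else insert y T) ?_ ?_ ?_ ?_
    · intro T _
      have : term (if y ∈ T then T.erase y else insert y T) C g = term T C g := by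
        unfold term
        congr 1
        apply propext
        constructor
        · intro h x hx
          by_cases hxy : x = y
          · rw [hxy]; exact hy
          · apply h
            split_ifs
            · intro h'; exact hx (Finset.mem_of_mem_erase h')
            · intro h'
              rcases Finset.mem_insert.1 h' with h' | h'
              · exact hxy h'
              · exact hx h'
        · intro h x hx
          by_cases hxy : x = y
          · rw [hxy]; exact hy
          · apply h
            intro h'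
            apply hx
            split_ifs
            · exact Finset.mem_erase.2 ⟨hxy, h'⟩
            · exact Finset.mem_insert_of_mem h'
      rw [this]
      exact CharTwo.add_self_eq_zero _
    · intro T _ _ h
      by_cases hyT : y ∈ T
      · rw [if_pos hyT] at h
        have h' : y ∉ T.erase y := Finset.notMem_erase y T
        rw [h] at h'
        exact h' hyT
      · rw [if_neg hyT] at h
        exact hyT (h ▸ Finset.mem_insert_self y T)
    · intro T hT
      rw [Finset.mem_filter, Finset.mem_filter, mem_Rch] at hT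
      obtain ⟨⟨hPR, hAT⟩, hn⟩ := hT
      have hcard := PR_card hPR
      rw [Finset.mem_filter, Finset.mem_filter, mem_Rch]
      by_cases hyT : y ∈ T
      · rw [if_pos hyT]
        have hA' : A ⊆ T.erase y := fun x hx =>
          Finset.mem_erase.2 ⟨fun h => hyA (h ▸ hx), hAT hx⟩
        have hmv : Mv R K (T.erase y) T :=
          ⟨A, y, hR, hA', Finset.notMem_erase y T, (Finset.insert_erase hyT).symm, hcard⟩
        refine ⟨⟨(PR_iff_of_Mv hmv).2 hPR, hA'⟩, ?_⟩
        rintro ⟨-, h3⟩
        have := Finset.card_erase_lt_of_mem hyT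
        omega
      · rw [if_neg hyT]
        have hlt : T.card < K := by
          rcases lt_or_eq_of_le hcard with h | h
          · exact h
          · exact absurd ⟨hyT, h⟩ hn
        have hmv : Mv R K T (insert y T) := by
          refine ⟨A, y, hR, hAT, hyT, rfl, ?_⟩
          rw [Finset.card_insert_of_notMem hyT]
          omega
        refine ⟨⟨(PR_iff_of_Mv hmv).1 hPR, hAT.trans (Finset.subset_insert _ _)⟩, ?_⟩
        rintro ⟨h3, -⟩
        exact h3 (Finset.mem_insert_self _ _)
    · intro T _
      by_cases hyT : y ∈ T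
      · simp [hyT, Finset.insert_erase]
      · simp [hyT]
  rw [h2, add_zero]
  rfl

/-- functions of the choices outside `insert y T` -/
noncomputable def UT (q : ℕ) (y : ι) (T : Finset ι) : Submodule (ZMod 2) ((ι → Fin q) → ZMod 2) :=
  LinearMap.range (LinearMap.funLeft (ZMod 2) (ZMod 2)
    (fun (g : ι → Fin q) (x : {x // x ∉ insert y T}) => g x.1))

theorem finrank_UT (y : ι) (T : Finset ι) (hy : y ∉ T) (hT : T.card = K) :
    Module.finrank (ZMod 2) (UT q y T) ≤ q ^ (Fintype.card ι - (K + 1)) := by
  classical
  unfold UT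
  refine (LinearMap.finrank_range_le _).trans ?_
  rw [Module.finrank_fintype_fun_eq_card, Fintype.card_fun, Fintype.card_fin]
  apply le_of_eq
  congr 1
  have h1 : Fintype.card {x // x ∉ insert y T} = (Finset.univ \ insert y T).card := by
    rw [Fintype.card_subtype]
    congr 1
    ext x; simp
  rw [h1, Finset.card_sdiff_of_subset (Finset.subset_univ _), Finset.card_univ,
    Finset.card_insert_of_notMem hy, hT]

theorem finrank_sup_le {α V : Type} [AddCommGroup V] [Module (ZMod 2) V] [Module.Finite (ZMod 2) V]
    (s : Finset α) (f : α → Submodule (ZMod 2) V) (b : ℕ)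
    (hf : ∀ a ∈ s, Module.finrank (ZMod 2) (f a) ≤ b) :
    Module.finrank (ZMod 2) (s.sup f : Submodule (ZMod 2) V) ≤ s.card * b := by
  classical
  induction s using Finset.induction_on with
  | empty => simp
  | insert a s ha ih =>
    rw [Finset.sup_insert, Finset.card_insert_of_notMem ha]
    have h1 := Submodule.finrank_add_le_finrank_add_finrank (f a) (s.sup f)
    have h2 := hf a (Finset.mem_insert_self _ _)
    have h3 := ih (fun x hx => hf x (Finset.mem_insert_of_mem hx))
    calc Module.finrank (ZMod 2) (f a ⊔ s.sup f : Submodule (ZMod 2) V) ≤ _ := h1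
      _ ≤ b + s.card * b := by omega
      _ = (s.card + 1) * b := by ring

theorem pot_rule {R : Finset ι → ι → Prop} {A : Finset ι} {y : ι} (hR : R A y) (hyA : y ∉ A)
    (I : Set (ι → Fin q)) (J : Set (Cuts ι q))
    (hIJ : ∀ g ∈ I, ∀ C ∈ J, (∀ x ∈ A, C x (g x) = true) ∧ C y (g y) = false) :
    pot (PM R K) I J ≤ ((Fintype.card ι ^ K * q ^ (Fintype.card ι - (K + 1)) : ℕ) : ℤ) := by
  classical
  have h1 : pot (PM R K) I J
      ≤ Module.finrank (ZMod 2) ((Sv R K A y).sup (UT q y) : Submodule (ZMod 2) _) := by
    apply pot_le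
    intro C hC
    have e : PM R K C = (∑ T ∈ Sv R K A y, fun g : ι → Fin q =>
        (if ∀ x, x ∉ insert y T → C x (g x) = false then (1 : ZMod 2) else 0))
        + (PM R K C - ∑ T ∈ Sv R K A y, fun g : ι → Fin q =>
        (if ∀ x, x ∉ insert y T → C x (g x) = false then (1 : ZMod 2) else 0)) := by
      rw [add_sub_cancel]
    rw [e]
    apply Submodule.add_mem
    · refine Submodule.mem_sup_left (Submodule.sum_mem _ fun T hT => ?_)
      have hle : UT q y T ≤ (Sv R K A y).sup (UT q y) := Finset.le_sup (f := UT q y) hT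
      apply hle
      refine ⟨fun φ => if ∀ x : {x // x ∉ insert y T}, C x.1 (φ x) = false then 1 else 0, ?_⟩
      funext g
      rw [LinearMap.funLeft_apply]
      congr 1
      apply propext
      constructor
      · intro h x hx; exact h ⟨x, hx⟩
      · intro h x; exact h x.1 x.2
    · refine Submodule.mem_sup_right ?_
      intro g hg
      obtain ⟨h2, h3⟩ := hIJ g hg C hC
      rw [Pi.sub_apply, PM_rule hR hyA C g h2 h3, Finset.sum_apply, sub_eq_zero]
      refine Finset.sum_congr rfl fun T _ => ?_
      unfold term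
      congr 1
      apply propext
      constructor
      · intro h x hx
        exact h x (fun h' => hx (Finset.mem_insert_of_mem h'))
      · intro h x hx
        by_cases hxy : x = y
        · rw [hxy]; exact h3
        · apply h
          intro h'
          rcases Finset.mem_insert.1 h' with h' | h'
          · exact hxy h'
          · exact hx h'
  have h2 : Module.finrank (ZMod 2) ((Sv R K A y).sup (UT q y) : Submodule (ZMod 2) _)
      ≤ (Sv R K A y).card * q ^ (Fintype.card ι - (K + 1)) := by
    apply finrank_sup_le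
    intro T hT
    unfold Sv at hT
    rw [Finset.mem_filter] at hT
    exact finrank_UT y T hT.2.2.1 hT.2.2.2
  have h3 : (Sv R K A y).card ≤ Fintype.card ι ^ K := by
    have h4 : Sv R K A y ⊆ Finset.powersetCard K (Finset.univ : Finset ι) := by
      intro T hT
      unfold Sv at hT
      rw [Finset.mem_filter] at hT
      rw [Finset.mem_powersetCard]
      exact ⟨Finset.subset_univ _, hT.2.2.2⟩
    refine (Finset.card_le_card h4).trans ?_
    rw [Finset.card_powersetCard, Finset.card_univ]
    exact Nat.choose_le_pow _ _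
  refine h1.trans ?_
  exact_mod_cast h2.trans (Nat.mul_le_mul_right _ h3)

theorem pot_goal {R : Finset ι → ι → Prop} {Z : Finset ι → Prop} (hs : Safe R Z K)
    {A : Finset ι} (hA : Z A) (I : Set (ι → Fin q)) (J : Set (Cuts ι q))
    (hIJ : ∀ g ∈ I, ∀ C ∈ J, ∀ x ∈ A, C x (g x) = true) : pot (PM R K) I J = 0 := by
  classical
  apply pot_zero
  intro C hC g hg
  unfold PM
  refine Finset.sum_eq_zero fun T hT => ?_
  have h1 := hs T A (mem_Rch.1 hT) hA
  rw [Finset.not_subset] at h1
  obtain ⟨x, hx, hxT⟩ := h1
  exact term_eq_zero hxT (hIJ g hg C hC x hx)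

end matrix

/-! ### the main lemma -/

/-- the rectangle of a variable: either it is empty, or it is inside the
rectangle of a goal, or of a rule -/
def Rect {ι : Type} [Fintype ι] [DecidableEq ι] {q : ℕ} (R : Finset ι → ι → Prop)
    (Z : Finset ι → Prop) (I : Set (ι → Fin q)) (J : Set (Cuts ι q)) : Prop :=
  I = ∅ ∨ J = ∅ ∨ (∃ A, Z A ∧ ∀ g ∈ I, ∀ C ∈ J, ∀ x ∈ A, C x (g x) = true) ∨
    ∃ A y, R A y ∧ y ∉ A ∧ ∀ g ∈ I, ∀ C ∈ J, (∀ x ∈ A, C x (g x) = true) ∧ C y (g y) = false

/-- **Main lemma.**  If every choice is accepted by one of the circuits of a list with few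
wires, then some cut is accepted by one of them. -/
theorem exists_cut {X : Type} {ι : Type} [Fintype ι] [DecidableEq ι] {q K : ℕ}
    (hq : Even q) (hq0 : 0 < q) (hK : K + 1 ≤ Fintype.card ι)
    {R : Finset ι → ι → Prop} {Z : Finset ι → Prop} (hs : Safe R Z K)
    (L : List (CNet X)) (YP : (ι → Fin q) → X → Prop) (YC : Cuts ι q → X → Prop)
    (hrect : ∀ x, Rect R Z {g | YP g x} {C | ¬ YC C x})
    (hsize : (L.map CNet.wires).sum * Fintype.card ι ^ K < q ^ (K + 1))
    (hacc : ∀ g, ∃ N ∈ L, N.Accepts (YP g)) : ∃ N ∈ L, ∃ C, N.Accepts (YC C) := by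
  classical
  by_contra hcon
  push Not at hcon
  obtain ⟨β, hβ⟩ : ∃ β, β = Fintype.card ι ^ K * q ^ (Fintype.card ι - (K + 1)) := ⟨_, rfl⟩
  have hvar : ∀ x, pot (PM R K) {g | YP g x} {C | ¬ YC C x} ≤ (β : ℤ) := by
    intro x
    rcases hrect x with h | h | ⟨A, h1, h2⟩ | ⟨A, y, h1, h2, h3⟩
    · rw [h, pot_no_rows]; positivity
    · rw [h, pot_zero]
      · positivity
      · intro z hz; exact absurd hz (Set.notMem_empty z)
    · rw [pot_goal hs h1 _ _ h2]; positivity
    · rw [hβ]; exact pot_rule h1 h2 _ _ h3
  have hN : ∀ N ∈ L, {g | N.Accepts (YP g)}.ncard ≤ N.wires * β := fun N hN =>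
    accepted_card (PM R K) YP YC (PM_span hq R K) β hvar N (hcon N hN)
  have hcover : ∀ L' : List (CNet X), (∀ N ∈ L', {g | N.Accepts (YP g)}.ncard ≤ N.wires * β) →
      {g | ∃ N ∈ L', N.Accepts (YP g)}.ncard ≤ (L'.map CNet.wires).sum * β := by
    intro L'
    induction L' with
    | nil => intro _; simp
    | cons N L' ih =>
      intro h
      have h1 := h N (List.mem_cons_self)
      have h2 := ih (fun N' hN' => h N' (List.mem_cons_of_mem _ hN'))
      have h3 : {g | ∃ N' ∈ N :: L', N'.Accepts (YP g)}
          = {g | N.Accepts (YP g)} ∪ {g | ∃ N' ∈ L', N'.Accepts (YP g)} := by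
        ext g; simp
      rw [h3, List.map_cons, List.sum_cons, add_mul]
      exact (Set.ncard_union_le _ _).trans (Nat.add_le_add h1 h2)
  have h1 := hcover L hN
  have h2 : {g | ∃ N ∈ L, N.Accepts (YP g)} = Set.univ := by
    ext g; simp only [Set.mem_ofPred_eq, Set.mem_univ, iff_true]; exact hacc g
  rw [h2, Set.ncard_univ, Nat.card_eq_fintype_card, Fintype.card_fun, Fintype.card_fin, hβ,
    ← mul_assoc] at h1
  have h3 : q ^ (Fintype.card ι) = q ^ (K + 1) * q ^ (Fintype.card ι - (K + 1)) := by
    rw [← pow_add]; congr 1; omega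
  rw [h3] at h1
  have h4 := Nat.le_of_mul_le_mul_right h1 (by positivity)
  omega

end H198R2.CC
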