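import Pool.Agent.H198R2.CC.Flat

/-!
# NOT gates inside comparator circuits
-/

set_option linter.unusedSectionVars false

namespace H198R2.CC

open Finset Relation H534R2.Gen

section stage

variable {m : ℕ}

open Classical in
/-- The gates before the `i`-th NOT gate (all gates if there are at most `i` NOT gates), where the
earlier NOT gates are replaced by constants according to `A`, and the wire of the input of
that NOT gate. -/
noncomputable def stage : List (NGate m) → ℕ → ℕ → (ℕ → Prop) → Fin m → List (Gate m) × Fin m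
  | [], _, _, _, o => ([], o)
  | .cmp a b :: L, i, j, A, o => (.cmp a b :: (stage L i j A o).1, (stage L i j A o).2)
  | .cst a b :: L, i, j, A, o => (.cst a b :: (stage L i j A o).1, (stage L i j A o).2)
  | .neg a :: _, 0, _, _, _ => ([], a)
  | .neg a :: L, i + 1, j, A, o => (.cst a (decide (¬ A j)) :: (stage L i (j + 1) A o).1,
      (stage L i (j + 1) A o).2)

/-- the input of the `i`-th NOT gate, or the output -/
def valAt : List (NGate m) → (Fin m → Prop) → ℕ → Fin m → Prop
  | [], s, _, o => s o
  | .cmp a b :: L, s, i, o => valAt L ((NGate.cmp a b).step s) i o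
  | .cst a b :: L, s, i, o => valAt L ((NGate.cst a b).step s) i o
  | .neg a :: _, s, 0, _ => s a
  | .neg a :: L, s, i + 1, o => valAt L ((NGate.neg a).step s) i o

theorem stage_congr (L : List (NGate m)) : ∀ (i j : ℕ) (A A' : ℕ → Prop) (o : Fin m),
    (∀ k < i, (A (j + k) ↔ A' (j + k))) → stage L i j A o = stage L i j A' o := by
  classical
  induction L with
  | nil => intro i j A A' o _; rfl
  | cons G L ih =>
    intro i j A A' o h
    cases G with
    | cmp a b => simp only [stage]; rw [ih i j A A' o h]
    | cst a b => simp only [stage]; rw [ih i j A A' o h]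
    | neg a =>
      cases i with
      | zero => rfl
      | succ i =>
        simp only [stage]
        have h0 : A j ↔ A' j := h 0 (Nat.succ_pos _)
        have h1 := ih i (j + 1) A A' o (fun k hk => by
          have := h (k + 1) (by omega)
          have e : j + (k + 1) = j + 1 + k := by omega
          rwa [e] at this)
        rw [h1]
        simp only [h0]

theorem stage_val (L : List (NGate m)) : ∀ (i j : ℕ) (A : ℕ → Prop) (o : Fin m) (s : Fin m → Prop),
    (∀ k < i, (A (j + k) ↔ valAt L s k o)) →
    ((stage L i j A o).1.foldl (fun s G => G.step s) s (stage L i j A o).2 ↔ valAt L s i o) := by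
  classical
  induction L with
  | nil => intro i j A o s _; exact Iff.rfl
  | cons G L ih =>
    intro i j A o s h
    cases G with
    | cmp a b => exact ih i j A o _ h
    | cst a b => exact ih i j A o _ h
    | neg a =>
      cases i with
      | zero => exact Iff.rfl
      | succ i =>
        have h0 : A j ↔ s a := h 0 (Nat.succ_pos _)
        have h1 := ih i (j + 1) A o ((NGate.neg a).step s) (fun k hk => by
          have := h (k + 1) (by omega)
          have e : j + (k + 1) = j + 1 + k := by omega
          rw [e] at this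
          exact this)
        have e : (Gate.cst a (decide (¬ A j))).step s = (NGate.neg a).step s := by
          show Function.update s a (decide (¬ A j) = true) = Function.update s a (¬ s a)
          congr 1
          apply propext
          rw [decide_eq_true_iff, h0]
        show (stage L i (j + 1) A o).1.foldl (fun s G => G.step s)
          ((Gate.cst a (decide (¬ A j))).step s) (stage L i (j + 1) A o).2 ↔ _
        rw [e]
        exact h1

theorem valAt_all (L : List (NGate m)) : ∀ (i : ℕ) (s : Fin m → Prop) (o : Fin m),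
    (L.map NGate.isNeg).sum ≤ i → (valAt L s i o ↔ L.foldl (fun s G => G.step s) s o) := by
  induction L with
  | nil => intro i s o _; exact Iff.rfl
  | cons G L ih =>
    intro i s o h
    rw [List.map_cons, List.sum_cons] at h
    cases G with
    | cmp a b => exact ih i _ o (by simp only [NGate.isNeg] at h; omega)
    | cst a b => exact ih i _ o (by simp only [NGate.isNeg] at h; omega)
    | neg a =>
      simp only [NGate.isNeg] at h
      cases i with
      | zero => omega
      | succ i => exact ih i _ o (by omega)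

end stage

/-- the monotone circuit for the `i`-th NOT gate -/
noncomputable def NNet.round {X : Type} (N : NNet X) (i : ℕ) (A : ℕ → ℕ → Prop) : CNet X where
  wires := N.wires
  src := N.src
  gates := (stage N.gates i 0 (fun j => A j 0) N.out).1
  out := (stage N.gates i 0 (fun j => A j 0) N.out).2

/-- NOT gates as rounds -/
theorem NNet.rounds {X : Type} (N : NNet X) (v : X → Prop) : ∃ A : ℕ → ℕ → Prop,
    (∀ i, (A i 0 ↔ (N.round i A).Accepts v)) ∧ ((N.round N.nots A).Accepts v ↔ N.Accepts v) := by
  refine ⟨fun i _ => valAt N.gates (fun i => (N.src i).val v) i N.out, ?_, ?_⟩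
  · intro i
    symm
    exact stage_val N.gates i 0 _ N.out _ (fun k _ => by rw [Nat.zero_add]; exact Iff.rfl)
  · refine (stage_val N.gates N.nots 0 _ N.out _ (fun k _ => by rw [Nat.zero_add]; exact Iff.rfl)).trans ?_
    exact valAt_all N.gates _ _ _ le_rfl

/-- **Comparator circuits with NOT gates**, host version. -/
theorem nots_host (h M : ℕ) (hh : 1 ≤ h) (V : Type) [Fintype V] (t : V)
    (hV : 2 * M * (h + 1) ^ 4 + 1 ≤ Fintype.card V) :
    ∃ H : PS V → Prop, {x : PS V | H x}.ncard ≤ 8 * M * (h + 1) ^ 8 ∧
      (∃ L : List ((PS V → Prop) → Prop), MC L ∧ L.length ≤ 32 * M * (h + 1) ^ 8 + 1 ∧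
        ∃ f ∈ L, ∀ v : PS V → Prop, (∀ x, v x → H x) → (f v ↔ Solv v t)) ∧
      (∃ L : List (ℕ × ((PS V → Prop) → Prop)), UC L ∧ L.length ≤ 32 * M * (h + 1) ^ 8 + 1 ∧
        ∃ f, (2 * h + 2, f) ∈ L ∧ ∀ v : PS V → Prop, (∀ x, v x → H x) → (f v ↔ Solv v t)) ∧
      (∀ N : NNet (PS V), (N.nots + 1) * N.wires ≤ 2 ^ h →
        (∀ v : PS V → Prop, (∀ x, v x → H x) → (N.Accepts v ↔ Solv v t)) →
        M + 1 ≤ 2 ^ N.nots) ∧
      ∀ (d : ℕ) (w : ℕ → ℕ) (N : ℕ → ℕ → (ℕ → ℕ → Prop) → CNet (PS V)),
        (∀ i k A A', (∀ j < i, ∀ k' < w j, (A j k' ↔ A' j k')) → N i k A = N i k A') →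
        (∀ A, (∑ i ∈ Finset.range d, ∑ k ∈ Finset.range (w i), (N i k A).wires)
          + (N d 0 A).wires ≤ 2 ^ h) →
        (∀ v : PS V → Prop, (∀ x, v x → H x) → ∃ A : ℕ → ℕ → Prop,
          (∀ i < d, ∀ k < w i, (A i k ↔ (N i k A).Accepts v)) ∧
          ((N d 0 A).Accepts v ↔ Solv v t)) →
        M + 1 ≤ ∏ i ∈ Finset.range d, (w i + 1) := by
  obtain ⟨H, h1, h2, h3, h4⟩ := rounds_host h M hh V t hV
  refine ⟨H, h1, h2, h3, ?_, h4⟩
  intro N hsize hdec
  have h5 := h4 N.nots (fun _ => 1) (fun i _ A => N.round i A) ?_ ?_ ?_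
  · simpa using h5
  · intro i k A A' hAA
    have : stage N.gates i 0 (fun j => A j 0) N.out = stage N.gates i 0 (fun j => A' j 0) N.out :=
      stage_congr _ _ _ _ _ _ (fun k hk => by
        rw [Nat.zero_add]; exact hAA k hk 0 Nat.one_pos)
    show NNet.round N i A = NNet.round N i A'
    unfold NNet.round
    rw [this]
  · intro A
    show (∑ i ∈ Finset.range N.nots, ∑ k ∈ Finset.range 1, N.wires) + N.wires ≤ 2 ^ h
    simp only [Finset.sum_const, Finset.card_range, smul_eq_mul, one_mul]
    linarith
  · intro v hv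
    obtain ⟨A, hA1, hA2⟩ := N.rounds v
    refine ⟨A, ?_, ?_⟩
    · intro i _ k hk
      have : k = 0 := by omega
      subst this
      exact hA1 i
    · rw [← hdec v hv]; exact hA2

/-- **Comparator circuits with NOT gates**: general bound. -/
theorem nots_bound (ℓ : ℕ) (V : Type) [Fintype V] (t : V) (N : NNet (PS V))
    (hsize : (N.nots + 1) * N.wires ≤ 2 ^ ℓ)
    (hdec : ∀ v : PS V → Prop, (N.Accepts v ↔ Solv v t)) :
    Fintype.card V ≤ 2 * (ℓ + 2) ^ 4 * 2 ^ N.nots := by
  have h5 := rounds_bound ℓ N.nots (fun _ => 1) V t (fun i _ A => N.round i A) ?_ ?_ ?_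
  · simpa using h5
  · intro i k A A' hAA
    have : stage N.gates i 0 (fun j => A j 0) N.out = stage N.gates i 0 (fun j => A' j 0) N.out :=
      stage_congr _ _ _ _ _ _ (fun k hk => by
        rw [Nat.zero_add]; exact hAA k hk 0 Nat.one_pos)
    show NNet.round N i A = NNet.round N i A'
    unfold NNet.round
    rw [this]
  · intro A
    show (∑ i ∈ Finset.range N.nots, ∑ k ∈ Finset.range 1, N.wires) + N.wires ≤ 2 ^ ℓ
    simp only [Finset.sum_const, Finset.card_range, smul_eq_mul, one_mul]
    linarith
  · intro v
    obtain ⟨A, hA1, hA2⟩ := N.rounds v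
    refine ⟨A, ?_, ?_⟩
    · intro i _ k hk
      have : k = 0 := by omega
      subst this
      exact hA1 i
    · rw [← hdec v]; exact hA2

end H198R2.CC
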