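import Pool.Agent.H198R2.CC.Rank
import Pool.Agent.H198R2.CC.Defs

/-!
# The rank does not increase along a comparator circuit
-/

set_option linter.unusedSectionVars false

namespace H198R2.CC

open Module

section circuits

variable {X : Type} {F : Type} [Field F] {Y Z : Type} [Fintype Y]
  (A : Z → Y → F) (u : Y → X → Prop) (v : Z → X → Prop)

/-- the rank of the rectangle of a function -/
noncomputable def pf (f : (X → Prop) → Prop) : ℤ := pot A {y | f (u y)} {z | ¬ f (v z)}

theorem pf_nonneg (f : (X → Prop) → Prop) : 0 ≤ pf A u v f := pot_nonneg _ _

theorem pf_and_or (f g : (X → Prop) → Prop) :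
    pf A u v (fun w => f w ∧ g w) + pf A u v (fun w => f w ∨ g w) ≤ pf A u v f + pf A u v g := by
  have h := pot_sub (A := A) {y | f (u y)} {y | g (u y)} {z | ¬ f (v z)} {z | ¬ g (v z)}
  have e1 : {y : Y | f (u y) ∧ g (u y)} = {y | f (u y)} ∩ {y | g (u y)} := rfl
  have e2 : {y : Y | f (u y) ∨ g (u y)} = {y | f (u y)} ∪ {y | g (u y)} := rfl
  have e3 : {z : Z | ¬ (f (v z) ∧ g (v z))} = {z | ¬ f (v z)} ∪ {z | ¬ g (v z)} := by
    ext z; simp only [Set.mem_ofPred_eq, Set.mem_union]; tauto
  have e4 : {z : Z | ¬ (f (v z) ∨ g (v z))} = {z | ¬ f (v z)} ∩ {z | ¬ g (v z)} := by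
    ext z; simp only [Set.mem_ofPred_eq, Set.mem_inter_iff]; tauto
  unfold pf
  rw [e1, e2, e3, e4]
  exact h

theorem pf_const (p : Prop) : pf A u v (fun _ => p) = 0 := by
  unfold pf
  by_cases hp : p
  · apply pot_zero
    intro z hz
    exact absurd hp hz
  · have : {y : Y | p} = (∅ : Set Y) := by
      ext y; simp [hp]
    rw [this]
    exact pot_no_rows _

/-- total rank of a state -/
noncomputable def Phi {m : ℕ} (s : (X → Prop) → Fin m → Prop) : ℤ :=
  ∑ i, pf A u v (fun w => s w i)

theorem Phi_step {m : ℕ} (s : (X → Prop) → Fin m → Prop) (G : Gate m) :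
    Phi A u v (fun w => G.step (s w)) ≤ Phi A u v s := by
  classical
  unfold Phi
  cases G with
  | cst i b =>
    rw [← Finset.add_sum_erase _ _ (Finset.mem_univ i),
      ← Finset.add_sum_erase Finset.univ (fun j => pf A u v (fun w => s w j)) (Finset.mem_univ i)]
    apply add_le_add
    · have : (fun w => (Gate.cst i b).step (s w) i) = fun _ : X → Prop => (b = true) := by
        funext w
        show Function.update (s w) i (b = true) i = _
        rw [Function.update_self]
      rw [this, pf_const]
      exact pf_nonneg _ _ _ _
    · apply le_of_eq
      refine Finset.sum_congr rfl fun j hj => ?_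
      have hne : j ≠ i := (Finset.mem_erase.1 hj).1
      congr 1
      funext w
      show Function.update (s w) i (b = true) j = _
      rw [Function.update_of_ne hne]
  | cmp i j =>
    by_cases hij : i = j
    · subst hij
      apply le_of_eq
      refine Finset.sum_congr rfl fun k _ => ?_
      congr 1
      funext w
      show Function.update (Function.update (s w) i (s w i ∧ s w i)) i (s w i ∨ s w i) k = s w k
      by_cases hk : k = i
      · subst hk
        rw [Function.update_self]
        exact propext (or_self_iff)
      · rw [Function.update_of_ne hk, Function.update_of_ne hk]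
    · have hji : j ≠ i := fun h => hij h.symm
      have hi : i ∈ (Finset.univ : Finset (Fin m)) := Finset.mem_univ i
      have hj : j ∈ (Finset.univ : Finset (Fin m)).erase i :=
        Finset.mem_erase.2 ⟨hji, Finset.mem_univ j⟩
      rw [← Finset.add_sum_erase _ _ hi, ← Finset.add_sum_erase _ _ hj,
        ← Finset.add_sum_erase Finset.univ (fun j => pf A u v (fun w => s w j)) hi,
        ← Finset.add_sum_erase _ (fun j => pf A u v (fun w => s w j)) hj]
      have e1 : (fun w => (Gate.cmp i j).step (s w) i) = fun w => s w i ∧ s w j := by
        funext w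
        show Function.update (Function.update (s w) i _) j _ i = _
        rw [Function.update_of_ne hij, Function.update_self]
      have e2 : (fun w => (Gate.cmp i j).step (s w) j) = fun w => s w i ∨ s w j := by
        funext w
        show Function.update (Function.update (s w) i _) j _ j = _
        rw [Function.update_self]
      have e3 : ∑ k ∈ ((Finset.univ : Finset (Fin m)).erase i).erase j,
          pf A u v (fun w => (Gate.cmp i j).step (s w) k)
          = ∑ k ∈ ((Finset.univ : Finset (Fin m)).erase i).erase j, pf A u v (fun w => s w k) := by
        refine Finset.sum_congr rfl fun k hk => ?_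
        have h1 : k ≠ j := (Finset.mem_erase.1 hk).1
        have h2 : k ≠ i := (Finset.mem_erase.1 (Finset.mem_erase.1 hk).2).1
        congr 1
        funext w
        show Function.update (Function.update (s w) i _) j _ k = _
        rw [Function.update_of_ne h1, Function.update_of_ne h2]
      rw [e1, e2, e3]
      have h := pf_and_or A u v (fun w => s w i) (fun w => s w j)
      linarith

theorem Phi_run {m : ℕ} (L : List (Gate m)) : ∀ (s : (X → Prop) → Fin m → Prop),
    Phi A u v (fun w => L.foldl (fun s G => G.step s) (s w)) ≤ Phi A u v s := by
  induction L with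
  | nil => intro s; exact le_rfl
  | cons G L ih =>
    intro s
    exact (ih (fun w => G.step (s w))).trans (Phi_step A u v s G)

/-- **Counting**: a comparator circuit that rejects all `v z` accepts few of the `u y`. -/
theorem accepted_card (hA : Submodule.span F (Set.range A) = ⊤) (β : ℕ)
    (hvar : ∀ x, pot A {y | u y x} {z | ¬ v z x} ≤ β) (N : CNet X)
    (hrej : ∀ z, ¬ N.Accepts (v z)) : {y | N.Accepts (u y)}.ncard ≤ N.wires * β := by
  classical
  have h1 : pf A u v (fun w => N.final w N.out) = {y | N.Accepts (u y)}.ncard := by
    unfold pf
    have : {z | ¬ N.final (v z) N.out} = Set.univ := by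
      ext z
      simp only [Set.mem_ofPred_eq, Set.mem_univ, iff_true]
      exact hrej z
    rw [this, pot_univ hA]
    rfl
  have h2 : pf A u v (fun w => N.final w N.out) ≤ Phi A u v N.final :=
    Finset.single_le_sum (f := fun i => pf A u v (fun w => N.final w i))
      (fun i _ => pf_nonneg _ _ _ _) (Finset.mem_univ N.out)
  have h3 : Phi A u v N.final ≤ Phi A u v (fun w i => (N.src i).val w) :=
    Phi_run A u v N.gates _
  have h4 : Phi A u v (fun w i => (N.src i).val w) ≤ ∑ _i : Fin N.wires, (β : ℤ) := by
    refine Finset.sum_le_sum fun i _ => ?_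
    show pf A u v (fun w => (N.src i).val w) ≤ (β : ℤ)
    have hl : (∃ b, N.src i = .const b) ∨ ∃ x, N.src i = .var x := by
      cases N.src i with
      | const b => exact Or.inl ⟨b, rfl⟩
      | var x => exact Or.inr ⟨x, rfl⟩
    rcases hl with ⟨b, hb⟩ | ⟨x, hx⟩
    · have : (fun w : X → Prop => (N.src i).val w) = fun _ => (b = true) := by
        funext w; rw [hb]; rfl
      rw [this, pf_const]
      positivity
    · have : (fun w : X → Prop => (N.src i).val w) = fun w => w x := by
        funext w; rw [hx]; rfl
      rw [this]
      exact hvar x
  rw [Finset.sum_const, Finset.card_univ, Fintype.card_fin, nsmul_eq_mul] at h4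
  rw [h1] at h2
  have h5 := (h2.trans h3).trans h4
  exact_mod_cast h5

end circuits

/-! ### monotonicity -/

theorem Gate.step_mono {m : ℕ} (G : Gate m) {s s' : Fin m → Prop} (h : ∀ i, s i → s' i) :
    ∀ i, G.step s i → G.step s' i := by
  classical
  intro k
  cases G with
  | cst i b =>
    show Function.update s i _ k → Function.update s' i _ k
    by_cases hk : k = i
    · subst hk; rw [Function.update_self, Function.update_self]; exact id
    · rw [Function.update_of_ne hk, Function.update_of_ne hk]; exact h k
  | cmp i j =>
    show Function.update (Function.update s i _) j _ k →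
      Function.update (Function.update s' i _) j _ k
    by_cases hk : k = j
    · subst hk; rw [Function.update_self, Function.update_self]
      exact Or.imp (h _) (h _)
    · rw [Function.update_of_ne hk, Function.update_of_ne hk]
      by_cases hk2 : k = i
      · subst hk2; rw [Function.update_self, Function.update_self]
        exact And.imp (h _) (h _)
      · rw [Function.update_of_ne hk2, Function.update_of_ne hk2]; exact h k

theorem CNet.accepts_mono {X : Type} (N : CNet X) {v v' : X → Prop}
    (h : ∀ x, v x → v' x) (hv : N.Accepts v) : N.Accepts v' := by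
  have key : ∀ (L : List (Gate N.wires)) (s s' : Fin N.wires → Prop), (∀ i, s i → s' i) →
      ∀ i, L.foldl (fun s G => G.step s) s i → L.foldl (fun s G => G.step s) s' i := by
    intro L
    induction L with
    | nil => intro s s' h; exact h
    | cons G L ih =>
      intro s s' h
      exact ih _ _ (G.step_mono h)
  refine key N.gates _ _ ?_ _ hv
  intro i
  cases N.src i with
  | const b => exact id
  | var x => exact h x

end H198R2.CC
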