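import Pool.Agent.H198R2.CC.Pot

/-!
# Computations in rounds (after `Pool.Agent.H534R2.GenMain`)
-/

set_option linter.unusedSectionVars false

namespace H198R2.CC

open Finset Relation

/-! ### computations in rounds -/

/-- Computations that evaluate comparator circuits in rounds: `out N` outputs the answer of
the circuit `N`; `ask w N next` evaluates the `w` circuits `N i` and continues with a
computation that may depend on the `w` answers in an arbitrary way. -/
inductive CTree (X : Type) : Type
  | out (N : CNet X) : CTree X
  | ask (w : ℕ) (N : Fin w → CNet X) (next : (Fin w → Bool) → CTree X) : CTree X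

open Classical in
/-- the answers of the circuits -/
noncomputable def ans {X : Type} {w : ℕ} (N : Fin w → CNet X) (v : X → Prop) : Fin w → Bool :=
  fun i => decide ((N i).Accepts v)

namespace CTree

variable {X : Type}

/-- the value computed on the assignment `v` -/
noncomputable def eval : CTree X → (X → Prop) → Prop
  | out N, v => N.Accepts v
  | ask _ N next, v => (next (ans N v)).eval v

/-- the maximum over all branches of the product of `w + 1` over the rounds -/
def cost : CTree X → ℕ
  | out _ => 1
  | ask w _ next => (w + 1) * Finset.univ.sup (fun a => (next a).cost)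

/-- the maximum over all branches of the total number of wires of the circuits -/
def load : CTree X → ℕ
  | out N => N.wires
  | ask _ N next => (∑ i, (N i).wires) + Finset.univ.sup (fun a => (next a).load)

open Classical in
/-- the circuits on the branch of `v` that reject `v`, and the output circuit -/
noncomputable def zeros : CTree X → (X → Prop) → List (CNet X)
  | out N, _ => [N]
  | ask _ N next, v =>
      ((List.ofFn N).filter (fun N' => ¬ N'.Accepts v)) ++ (next (ans N v)).zeros v

open Classical in
/-- rank of the branch of `v` -/
noncomputable def rk : CTree X → (X → Prop) → ℕ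
  | out _, _ => 0
  | ask w N next, v =>
      (Finset.univ.filter (fun i => (N i).Accepts v)).card *
        Finset.univ.sup (fun a : Fin w → Bool => (next a).cost) + (next (ans N v)).rk v

theorem cost_pos (T : CTree X) : 1 ≤ T.cost := by
  induction T with
  | out N => exact le_rfl
  | ask w N next ih =>
    show 1 ≤ (w + 1) * Finset.univ.sup (fun a => (next a).cost)
    have h1 : (next (fun _ => true)).cost ≤ Finset.univ.sup (fun a => (next a).cost) :=
      Finset.le_sup (f := fun a => (next a).cost) (Finset.mem_univ _)
    have h2 := ih (fun _ => true)
    nlinarith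

theorem rk_lt_cost (T : CTree X) (v : X → Prop) : T.rk v < T.cost := by
  classical
  induction T with
  | out N => exact Nat.zero_lt_one
  | ask w N next ih =>
    show (Finset.univ.filter (fun i => (N i).Accepts v)).card *
        Finset.univ.sup (fun a : Fin w → Bool => (next a).cost) + (next (ans N v)).rk v
        < (w + 1) * Finset.univ.sup (fun a => (next a).cost)
    have h1 : (next (ans N v)).cost ≤ Finset.univ.sup (fun a => (next a).cost) :=
      Finset.le_sup (f := fun a => (next a).cost) (Finset.mem_univ _)
    have h2 := ih (ans N v)
    have h3 : (Finset.univ.filter (fun i => (N i).Accepts v)).card ≤ w := by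
      have := Finset.card_le_univ (Finset.univ.filter (fun i => (N i).Accepts v))
      rwa [Fintype.card_fin] at this
    have h4 := Nat.mul_le_mul_right (Finset.univ.sup (fun a : Fin w → Bool => (next a).cost)) h3
    have h5 : (w + 1) * Finset.univ.sup (fun a => (next a).cost)
        = w * Finset.univ.sup (fun a : Fin w → Bool => (next a).cost)
          + Finset.univ.sup (fun a : Fin w → Bool => (next a).cost) := by ring
    omega

theorem sum_filter_le (L : List (CNet X)) (p : CNet X → Bool) :
    ((L.filter p).map CNet.wires).sum ≤ (L.map CNet.wires).sum := by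
  induction L with
  | nil => simp
  | cons N L ih =>
    rw [List.filter_cons]
    split_ifs
    · simp only [List.map_cons, List.sum_cons]; omega
    · simp only [List.map_cons, List.sum_cons]; omega

theorem zeros_load (T : CTree X) (v : X → Prop) : ((T.zeros v).map CNet.wires).sum ≤ T.load := by
  classical
  induction T with
  | out N => simp [zeros, load]
  | ask w N next ih =>
    show ((((List.ofFn N).filter (fun N' => ¬ N'.Accepts v)) ++
      (next (ans N v)).zeros v).map CNet.wires).sum
        ≤ (∑ i, (N i).wires) + Finset.univ.sup (fun a => (next a).load)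
    rw [List.map_append, List.sum_append]
    have h1 : (next (ans N v)).load ≤ Finset.univ.sup (fun a => (next a).load) :=
      Finset.le_sup (f := fun a => (next a).load) (Finset.mem_univ _)
    have h2 := ih (ans N v)
    have h3 := sum_filter_le (List.ofFn N) (fun N' => decide (¬ N'.Accepts v))
    have h4 : ((List.ofFn N).map CNet.wires).sum = ∑ i, (N i).wires := by
      rw [List.map_ofFn, List.sum_ofFn]; rfl
    rw [h4] at h3
    omega

theorem ans_ne {w : ℕ} {N : Fin w → CNet X} {v v' : X → Prop} (h : ∀ x, v x → v' x)
    (hne : ans N v ≠ ans N v') : ∃ i, ¬ (N i).Accepts v ∧ (N i).Accepts v' := by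
  classical
  by_contra hcon
  push Not at hcon
  apply hne
  funext i
  unfold ans
  by_cases hi : (N i).Accepts v
  · have := (N i).accepts_mono h hi
    simp [hi, this]
  · have := hcon i hi
    simp [hi, this]

theorem ans_eq_iff {w : ℕ} {N : Fin w → CNet X} {v v' : X → Prop}
    (he : ans N v = ans N v') (i : Fin w) : (N i).Accepts v ↔ (N i).Accepts v' := by
  classical
  have := congrFun he i
  unfold ans at this
  simpa using this

/-- a larger accepted assignment is accepted by one of the circuits on the branch -/
theorem found (T : CTree X) {v v' : X → Prop} (h : ∀ x, v x → v' x)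
    (hT : T.eval v') : ∃ N ∈ T.zeros v, N.Accepts v' := by
  classical
  induction T with
  | out N => exact ⟨N, by simp [zeros], hT⟩
  | ask w N next ih =>
    by_cases he : ans N v = ans N v'
    · have hT' : (next (ans N v')).eval v' := hT
      rw [← he] at hT'
      obtain ⟨N', h1, h2⟩ := ih _ hT'
      exact ⟨N', List.mem_append_right _ h1, h2⟩
    · obtain ⟨i, h1, h2⟩ := ans_ne h he
      refine ⟨N i, List.mem_append_left _ ?_, h2⟩
      rw [List.mem_filter]
      exact ⟨(List.mem_ofFn' _ _).2 ⟨i, rfl⟩, by simpa using h1⟩

/-- if one of the circuits on the branch of `v` accepts the larger rejected assignment `v'`, the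
rank increases -/
theorem rk_lt (T : CTree X) {v v' : X → Prop} (h : ∀ x, v x → v' x)
    (hT : ¬ T.eval v') (hN : ∃ N ∈ T.zeros v, N.Accepts v') : T.rk v < T.rk v' := by
  classical
  induction T with
  | out N =>
    obtain ⟨N', h1, h2⟩ := hN
    have : N' = N := by simpa [zeros] using h1
    subst this
    exact absurd h2 hT
  | ask w N next ih =>
    show (Finset.univ.filter (fun i => (N i).Accepts v)).card *
        Finset.univ.sup (fun a : Fin w → Bool => (next a).cost) + (next (ans N v)).rk v
        < (Finset.univ.filter (fun i => (N i).Accepts v')).card *
        Finset.univ.sup (fun a : Fin w → Bool => (next a).cost) + (next (ans N v')).rk v'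
    by_cases he : ans N v = ans N v'
    · have hcard : (Finset.univ.filter (fun i => (N i).Accepts v))
          = (Finset.univ.filter (fun i => (N i).Accepts v')) := by
        ext i; simp only [Finset.mem_filter, Finset.mem_univ, true_and]
        exact ans_eq_iff he i
      have hT' : ¬ (next (ans N v)).eval v' := by rw [he]; exact hT
      obtain ⟨N', h1, h2⟩ := hN
      have h3 : N' ∈ (next (ans N v)).zeros v := by
        rcases List.mem_append.1 h1 with h4 | h4
        · exfalso
          rw [List.mem_filter] at h4
          obtain ⟨i, rfl⟩ := (List.mem_ofFn' _ _).1 h4.1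
          have h5 : ¬ (N i).Accepts v := by simpa using h4.2
          exact h5 ((ans_eq_iff he i).2 h2)
        · exact h4
      have := ih _ hT' ⟨N', h3, h2⟩
      rw [hcard]
      rw [he] at this ⊢
      omega
    · obtain ⟨i, h1, h2⟩ := ans_ne h he
      have hlt : (Finset.univ.filter (fun i => (N i).Accepts v)).card + 1
          ≤ (Finset.univ.filter (fun i => (N i).Accepts v')).card := by
        apply Finset.card_lt_card
        rw [Finset.ssubset_iff_of_subset]
        · exact ⟨i, by simp [h2], by simp [h1]⟩
        · intro j hj
          simp only [Finset.mem_filter, Finset.mem_univ, true_and] at hj ⊢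
          exact (N j).accepts_mono h hj
      have h3 := rk_lt_cost (next (ans N v)) v
      have h4 : (next (ans N v)).cost
          ≤ Finset.univ.sup (fun a : Fin w → Bool => (next a).cost) :=
        Finset.le_sup (f := fun a => (next a).cost) (Finset.mem_univ _)
      have h5 := Nat.mul_le_mul_right
        (Finset.univ.sup (fun a : Fin w → Bool => (next a).cost)) hlt
      have h6 : ((Finset.univ.filter (fun i => (N i).Accepts v)).card + 1) *
          Finset.univ.sup (fun a : Fin w → Bool => (next a).cost)
          = (Finset.univ.filter (fun i => (N i).Accepts v)).card *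
            Finset.univ.sup (fun a : Fin w → Bool => (next a).cost)
            + Finset.univ.sup (fun a : Fin w → Bool => (next a).cost) := by ring
      omega

/-- a chain of `M + 1` rejected assignments, each forcing the next, gives cost at least `M + 1` -/
theorem cost_of_chain (T : CTree X) (M : ℕ) (Good : ℕ → (X → Prop) → Prop)
    (h0 : ∃ v, Good 0 v)
    (hstep : ∀ k < M, ∀ v, Good k v → ∃ v', Good (k + 1) v' ∧ (∀ x, v x → v' x) ∧
      ∃ N ∈ T.zeros v, N.Accepts v')
    (hrej : ∀ k v, Good k v → ¬ T.eval v) : M + 1 ≤ T.cost := by
  have key : ∀ k ≤ M, ∃ v, Good k v ∧ k ≤ T.rk v := by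
    intro k
    induction k with
    | zero => intro _; obtain ⟨v, hv⟩ := h0; exact ⟨v, hv, Nat.zero_le _⟩
    | succ k ih =>
      intro hk
      obtain ⟨v, hv, hkv⟩ := ih (by omega)
      obtain ⟨v', hv', hle, hN⟩ := hstep k hk v hv
      have := T.rk_lt hle (hrej _ _ hv') hN
      exact ⟨v', hv', by omega⟩
  obtain ⟨v, -, hv⟩ := key M le_rfl
  have := T.rk_lt_cost v
  omega

end CTree

end H198R2.CC
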