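import Pool.Agent.H198R2.CC.Mat
import Pool.Agent.H198R2.CC.Tree
import Pool.Agent.H534R2.GenFinal

/-!
# Pyramids: the lower bound for the block function
-/

set_option linter.unusedSectionVars false

namespace H198R2.CC

open Finset Relation H534R2.Gen

section pyr

variable {M h q : ℕ}

theorem rect_block (v : PVar M h q → Prop) (b : Fin M) (x : PVar M h q) :
    Rect (PyrR h) (PyrZ h) {g : Pos h → Fin q | v x ∨ YP b g x}
      {C : Cuts (Pos h) q | ¬ (v x ∨ YC b C x)} := by
  classical
  by_cases hv : v x
  · refine Or.inr (Or.inl ?_)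
    ext C; simp [hv]
  · cases x with
    | ax b' j u =>
      by_cases hb : b' = b
      · refine Or.inr (Or.inr (Or.inr ⟨∅, (0, j), Or.inl ⟨j, rfl, rfl⟩, by simp, ?_⟩))
        intro g hg C hC
        rcases hg with hg | hg
        · exact absurd hg hv
        obtain ⟨-, hu⟩ := hg
        refine ⟨by simp, ?_⟩
        by_contra hne
        apply hC
        refine Or.inr ⟨hb, ?_⟩
        rw [hu]
        simpa using hne
      · refine Or.inl ?_
        ext g
        simp only [Set.mem_ofPred_eq, Set.mem_empty_iff_false, iff_false]
        rintro (hg | hg)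
        · exact hv hg
        · exact hb hg.1
    | rl b' i j u₁ u₂ u =>
      by_cases hb : b' = b
      · refine Or.inr (Or.inr (Or.inr ⟨_, _, Or.inr ⟨i, j, rfl, rfl⟩, ?_, ?_⟩))
        · intro hmem
          rw [Finset.mem_insert, Finset.mem_singleton] at hmem
          rcases hmem with h1 | h1
          · have h2 : i.succ = i.castSucc := congrArg Prod.fst h1
            have := congrArg Fin.val h2
            simp at this
          · have h2 : i.succ = i.castSucc := congrArg Prod.fst h1
            have := congrArg Fin.val h2
            simp at this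
        · intro g hg C hC
          rcases hg with hg | hg
          · exact absurd hg hv
          obtain ⟨-, hu1, hu2, hu⟩ := hg
          have h1 : C (i.castSucc, j.castSucc) u₁ = true ∧
              C (i.castSucc, j.succ) u₂ = true ∧ C (i.succ, j.castSucc) u = false := by
            by_contra hne
            exact hC (Or.inr ⟨hb, hne⟩)
          rw [hu1, hu2, hu] at h1
          refine ⟨?_, h1.2.2⟩
          intro p hp
          rw [Finset.mem_insert, Finset.mem_singleton] at hp
          rcases hp with rfl | rfl
          · exact h1.1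
          · exact h1.2.1
      · refine Or.inl ?_
        ext g
        simp only [Set.mem_ofPred_eq, Set.mem_empty_iff_false, iff_false]
        rintro (hg | hg)
        · exact hv hg
        · exact hb hg.1
    | gl b' u =>
      by_cases hb : b' = b
      · refine Or.inr (Or.inr (Or.inl ⟨_, rfl, ?_⟩))
        intro g hg C hC p hp
        rw [Finset.mem_singleton] at hp
        subst hp
        rcases hg with hg | hg
        · exact absurd hg hv
        obtain ⟨-, hu⟩ := hg
        by_contra hne
        apply hC
        refine Or.inr ⟨hb, ?_⟩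
        rw [hu]
        simpa using hne
      · refine Or.inl ?_
        ext g
        simp only [Set.mem_ofPred_eq, Set.mem_empty_iff_false, iff_false]
        rintro (hg | hg)
        · exact hv hg
        · exact hb hg.1

/-- **Lower bound for the block function.** -/
theorem pyr_bound (hq : q = 2 * (h + 1) ^ 2) (T : CTree (PVar M h q))
    (hload : T.load ≤ 2 ^ h)
    (hT : ∀ v : PVar M h q → Prop, T.eval v ↔ PyrFn v) : M + 1 ≤ T.cost := by
  classical
  refine T.cost_of_chain M (fun k v => ∃ D : Fin M → Cuts (Pos h) q, v = XX D k)
    ⟨XX (fun _ _ _ => true) 0, _, rfl⟩ ?_ ?_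
  · rintro k hk v ⟨D, rfl⟩
    have hcardι : Fintype.card (Pos h) = (h + 1) ^ 2 := by
      rw [Fintype.card_prod, Fintype.card_fin]; ring
    have hm : 1 ≤ (h + 1) ^ 2 := Nat.one_le_iff_ne_zero.2 (by positivity)
    obtain ⟨N, hN, C, hacc⟩ := exists_cut (K := h) (q := q) (ι := Pos h)
      ⟨(h + 1) ^ 2, by rw [hq]; ring⟩ (by omega)
      (by rw [hcardι]; exact Nat.le_self_pow (by norm_num) _) (pyr_safe h)
      (T.zeros (XX D k)) (fun g x => XX D k x ∨ YP ⟨k, hk⟩ g x)
      (fun C x => XX D k x ∨ YC ⟨k, hk⟩ C x)
      (fun x => rect_block (XX D k) ⟨k, hk⟩ x) (by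
        have h1 := (T.zeros_load (XX D k)).trans hload
        obtain ⟨s, hs⟩ : ∃ s, s = ((T.zeros (XX D k)).map CNet.wires).sum := ⟨_, rfl⟩
        rw [← hs] at h1 ⊢
        rw [hcardι, hq]
        calc s * ((h + 1) ^ 2) ^ h
            ≤ 2 ^ h * ((h + 1) ^ 2) ^ h := Nat.mul_le_mul_right _ h1
          _ = (2 * (h + 1) ^ 2) ^ h := by rw [mul_pow]
          _ < (2 * (h + 1) ^ 2) ^ (h + 1) := Nat.pow_lt_pow_right (by omega) (Nat.lt_succ_self h))
      (fun g => T.found (fun x hx => Or.inl hx)
        ((hT _).2 ((YP_fn ⟨k, hk⟩ g).mono fun x hx => Or.inr hx)))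
    refine ⟨fun x => XX D k x ∨ YC ⟨k, hk⟩ C x, ⟨Function.update D ⟨k, hk⟩ C, ?_⟩,
      fun x hx => Or.inl hx, N, hN, hacc⟩
    funext x
    exact propext (XX_succ D hk C x).symm
  · rintro k v ⟨D, rfl⟩
    rw [hT]
    exact XX_not_fn D k

end pyr

/-! ### substitution of variables -/

section pull

variable {X Y : Type}

open Classical in
/-- substitute variables in a source -/
noncomputable def Lit.pull (e : X → Y) : Lit Y → Lit X
  | .const b => .const b
  | .var y => if h : ∃ x, e x = y then .var h.choose else .const false

theorem Lit.pull_val {e : X → Y} (he : Function.Injective e) (l : Lit Y) (v : X → Prop) :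
    (l.pull e).val v ↔ l.val (Img e v) := by
  classical
  cases l with
  | const b => exact Iff.rfl
  | var y =>
    show (if h : ∃ x, e x = y then Lit.var h.choose else Lit.const false).val v ↔ Img e v y
    by_cases h : ∃ x, e x = y
    · rw [dif_pos h]
      show v h.choose ↔ _
      constructor
      · intro hx; exact ⟨_, hx, h.choose_spec⟩
      · rintro ⟨x, hx, hxy⟩
        have : x = h.choose := he (hxy.trans h.choose_spec.symm)
        rw [← this]; exact hx
    · rw [dif_neg h]
      show (false = true) ↔ _
      constructor
      · intro h; exact absurd h (by simp)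
      · rintro ⟨x, -, hxy⟩; exact absurd ⟨x, hxy⟩ h

/-- substitute variables in a circuit -/
noncomputable def CNet.pull (e : X → Y) (N : CNet Y) : CNet X where
  wires := N.wires
  src i := (N.src i).pull e
  gates := N.gates
  out := N.out

theorem CNet.pull_accepts {e : X → Y} (he : Function.Injective e) (N : CNet Y) (v : X → Prop) :
    (N.pull e).Accepts v ↔ N.Accepts (Img e v) := by
  have h : (fun i => ((N.src i).pull e).val v) = fun i => (N.src i).val (Img e v) := by
    funext i
    exact propext (Lit.pull_val he _ v)
  show N.gates.foldl (fun s G => G.step s) (fun i => ((N.src i).pull e).val v) N.out ↔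
    N.gates.foldl (fun s G => G.step s) (fun i => (N.src i).val (Img e v)) N.out
  rw [h]

/-- substitute variables in a computation -/
noncomputable def CTree.pull (e : X → Y) : CTree Y → CTree X
  | .out N => .out (N.pull e)
  | .ask w N next => .ask w (fun i => (N i).pull e) (fun a => (next a).pull e)

theorem CTree.pull_eval {e : X → Y} (he : Function.Injective e) (T : CTree Y) (v : X → Prop) :
    (T.pull e).eval v ↔ T.eval (Img e v) := by
  classical
  induction T with
  | out N => exact N.pull_accepts he v
  | ask w N next ih =>
    show ((next (ans (fun i => (N i).pull e) v)).pull e).eval v ↔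
      (next (ans N (Img e v))).eval (Img e v)
    have h : ans (fun i => (N i).pull e) v = ans N (Img e v) := by
      funext i
      unfold ans
      rw [decide_eq_decide]
      exact (N i).pull_accepts he v
    rw [h]
    exact ih _

theorem CTree.pull_cost (e : X → Y) (T : CTree Y) : (T.pull e).cost = T.cost := by
  induction T with
  | out N => rfl
  | ask w N next ih =>
    show (w + 1) * Finset.univ.sup (fun a => ((next a).pull e).cost)
      = (w + 1) * Finset.univ.sup (fun a => (next a).cost)
    simp only [ih]

theorem CTree.pull_load (e : X → Y) (T : CTree Y) : (T.pull e).load = T.load := by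
  induction T with
  | out N => rfl
  | ask w N next ih =>
    show (∑ i, ((N i).pull e).wires) + Finset.univ.sup (fun a => ((next a).pull e).load)
      = (∑ i, (N i).wires) + Finset.univ.sup (fun a => (next a).load)
    simp only [ih]
    rfl

end pull

theorem emb_inj {M h q : ℕ} {V : Type} {f : Option (Fin M × Pos h × Fin q) → V}
    (hf : Function.Injective f) : Function.Injective (emb f) := by
  intro x y hxy
  cases x with
  | ax b j u =>
    cases y with
    | ax b' j' u' =>
      have h1 := hf (PS.ax.inj hxy)
      simp only [Option.some.injEq, Prod.mk.injEq] at h1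
      obtain ⟨rfl, ⟨-, rfl⟩, rfl⟩ := h1
      rfl
    | rl b' i' j' u₁' u₂' u' => simp [emb] at hxy
    | gl b' u' => simp [emb] at hxy
  | rl b i j u₁ u₂ u =>
    cases y with
    | ax b' j' u' => simp [emb] at hxy
    | rl b' i' j' u₁' u₂' u' =>
      obtain ⟨e1, e2, e3⟩ := PS.rl.inj hxy
      have h1 := hf e1
      have h2 := hf e2
      have h3 := hf e3
      simp only [Option.some.injEq, Prod.mk.injEq, Fin.castSucc_inj, Fin.succ_inj] at h1 h2 h3
      obtain ⟨rfl, ⟨rfl, rfl⟩, rfl⟩ := h1
      obtain ⟨-, -, rfl⟩ := h2
      obtain ⟨-, -, rfl⟩ := h3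
      rfl
    | gl b' u' =>
      obtain ⟨e1, e2, e3⟩ := PS.rl.inj hxy
      exact absurd (hf e3) (by simp)
  | gl b u =>
    cases y with
    | ax b' j' u' => simp [emb] at hxy
    | rl b' i' j' u₁' u₂' u' =>
      obtain ⟨e1, e2, e3⟩ := PS.rl.inj hxy
      exact absurd (hf e3) (by simp)
    | gl b' u' =>
      obtain ⟨e1, e2, e3⟩ := PS.rl.inj hxy
      have h1 := hf e1
      simp only [Option.some.injEq, Prod.mk.injEq] at h1
      obtain ⟨rfl, -, rfl⟩ := h1
      rfl

end H198R2.CC
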