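import Mathlib

/-!
# Submodularity of the rank of rectangles
-/

set_option linter.unusedSectionVars false

namespace H198R2.CC

open Module

section rank

variable {F : Type} [Field F] {Y Z : Type} [Fintype Y]

/-- functions vanishing on `I` -/
def van (F : Type) [Field F] (I : Set Y) : Submodule F (Y → F) where
  carrier := {f | ∀ y ∈ I, f y = 0}
  add_mem' := by
    intro a b ha hb y hy
    show a y + b y = 0
    rw [ha y hy, hb y hy, add_zero]
  zero_mem' := by intro y _; rfl
  smul_mem' := by
    intro c f hf y hy
    show c * f y = 0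
    rw [hf y hy, mul_zero]

theorem mem_van {I : Set Y} {f : Y → F} : f ∈ van F I ↔ ∀ y ∈ I, f y = 0 := Iff.rfl

theorem finrank_van (I : Set Y) : finrank F (van F I) + I.ncard = Fintype.card Y := by
  classical
  have h1 : van F I = ⨅ i ∈ I, LinearMap.ker (LinearMap.proj i : (Y → F) →ₗ[F] F) := by
    ext f
    simp only [mem_van, Submodule.mem_iInf, LinearMap.mem_ker, LinearMap.proj_apply]
  have hd : Disjoint (Iᶜ) I := disjoint_compl_left
  have hu : (Set.univ : Set Y) ⊆ Iᶜ ∪ I := by
    intro x _
    by_cases h : x ∈ I
    · exact Or.inr h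
    · exact Or.inl h
  have e := LinearMap.iInfKerProjEquiv F (fun _ : Y => F) hd hu
  rw [h1, LinearEquiv.finrank_eq e, finrank_fintype_fun_eq_card]
  have h2 : Fintype.card (↥(Iᶜ)) = (Iᶜ).ncard := by
    rw [Set.ncard_eq_toFinset_card', Set.toFinset_card]
  rw [h2, ← Nat.card_eq_fintype_card, ← Set.ncard_add_ncard_compl I, add_comm]

/-- the columns in `J`, modulo functions vanishing on `I` -/
def WW (A : Z → Y → F) (I : Set Y) (J : Set Z) : Submodule F (Y → F) :=
  Submodule.span F (A '' J) ⊔ van F I

/-- the rank of the rectangle `I × J` -/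
noncomputable def pot (A : Z → Y → F) (I : Set Y) (J : Set Z) : ℤ :=
  (finrank F (WW A I J) : ℤ) + (I.ncard : ℤ) - (Fintype.card Y : ℤ)

variable {A : Z → Y → F}

theorem pot_nonneg (I : Set Y) (J : Set Z) : 0 ≤ pot A I J := by
  have h1 := finrank_van (F := F) I
  have h2 : finrank F (van F I) ≤ finrank F (WW A I J) :=
    Submodule.finrank_mono le_sup_right
  unfold pot
  omega

theorem pot_sub (I I' : Set Y) (J J' : Set Z) :
    pot A (I ∩ I') (J ∪ J') + pot A (I ∪ I') (J ∩ J') ≤ pot A I J + pot A I' J' := by
  classical
  have h1 : WW A (I ∩ I') (J ∪ J') ≤ WW A I J ⊔ WW A I' J' := by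
    unfold WW
    apply sup_le
    · rw [Submodule.span_le]
      rintro _ ⟨z, hz, rfl⟩
      rcases hz with hz | hz
      · exact Submodule.mem_sup_left (Submodule.mem_sup_left
          (Submodule.subset_span ⟨z, hz, rfl⟩))
      · exact Submodule.mem_sup_right (Submodule.mem_sup_left
          (Submodule.subset_span ⟨z, hz, rfl⟩))
    · intro f hf
      have e : f = (fun y => if y ∈ I then 0 else f y) + (fun y => if y ∈ I then f y else 0) := by
        funext y
        simp only [Pi.add_apply]
        split_ifs <;> simp
      rw [e]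
      apply Submodule.add_mem
      · refine Submodule.mem_sup_left (Submodule.mem_sup_right ?_)
        intro y hy
        show (if y ∈ I then (0 : F) else f y) = 0
        rw [if_pos hy]
      · refine Submodule.mem_sup_right (Submodule.mem_sup_right ?_)
        intro y hy
        show (if y ∈ I then f y else (0 : F)) = 0
        split_ifs with h
        · exact hf y ⟨h, hy⟩
        · rfl
  have h2 : WW A (I ∪ I') (J ∩ J') ≤ WW A I J ⊓ WW A I' J' := by
    unfold WW
    apply le_inf
    · apply sup_le_sup
      · exact Submodule.span_mono (Set.image_mono Set.inter_subset_left)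
      · intro f hf y hy
        exact hf y (Or.inl hy)
    · apply sup_le_sup
      · exact Submodule.span_mono (Set.image_mono Set.inter_subset_right)
      · intro f hf y hy
        exact hf y (Or.inr hy)
  have h3 := Submodule.finrank_sup_add_finrank_inf_eq (WW A I J) (WW A I' J')
  have h4 := Submodule.finrank_mono h1
  have h5 := Submodule.finrank_mono h2
  have h6 := Set.ncard_union_add_ncard_inter I I'
  unfold pot
  omega

theorem pot_no_rows (J : Set Z) : pot A ∅ J = 0 := by
  have h1 := finrank_van (F := F) (∅ : Set Y)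
  have h2 : finrank F (van F (∅ : Set Y)) ≤ finrank F (WW A ∅ J) :=
    Submodule.finrank_mono le_sup_right
  have h3 : finrank F (WW A ∅ J) ≤ Fintype.card Y := by
    rw [← finrank_fintype_fun_eq_card (R := F) (η := Y)]
    exact Submodule.finrank_le _
  have h4 : (∅ : Set Y).ncard = 0 := Set.ncard_empty Y
  unfold pot
  omega

theorem pot_le {I : Set Y} {J : Set Z} (U : Submodule F (Y → F)) (hU : ∀ z ∈ J, A z ∈ U ⊔ van F I) :
    pot A I J ≤ finrank F U := by
  have h1 : WW A I J ≤ U ⊔ van F I := by
    unfold WW
    apply sup_le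
    · rw [Submodule.span_le]
      rintro _ ⟨z, hz, rfl⟩
      exact hU z hz
    · exact le_sup_right
  have h2 := Submodule.finrank_mono h1
  have h3 := Submodule.finrank_add_le_finrank_add_finrank U (van F I)
  have h4 := finrank_van (F := F) I
  unfold pot
  omega

theorem pot_zero {I : Set Y} {J : Set Z} (h : ∀ z ∈ J, A z ∈ van F I) : pot A I J = 0 := by
  have h1 := pot_le (A := A) (I := I) (J := J) ⊥ (fun z hz => Submodule.mem_sup_right (h z hz))
  rw [finrank_bot] at h1
  have h2 := pot_nonneg (A := A) I J
  omega

theorem pot_univ (hA : Submodule.span F (Set.range A) = ⊤) (I : Set Y) :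
    pot A I Set.univ = I.ncard := by
  have h1 : WW A I Set.univ = ⊤ := by
    unfold WW
    rw [Set.image_univ, hA, top_sup_eq]
  unfold pot
  rw [h1, finrank_top, finrank_fintype_fun_eq_card]
  omega

end rank

end H198R2.CC
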