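import Pool.Agent.H198R2.CC.Pot

/-!
# Comparator circuits on arbitrary wires; thresholds; composition
-/

set_option linter.unusedSectionVars false

namespace H198R2.CC

/-- gates on the wires `W` -/
inductive WG (W : Type) : Type
  | cmp (i j : W) : WG W
  | cst (i : W) (b : Bool) : WG W

/-- rename the wires -/
def WG.map {W W' : Type} (f : W → W') : WG W → WG W'
  | .cmp i j => .cmp (f i) (f j)
  | .cst i b => .cst (f i) b

open Classical in
/-- the effect of a gate -/
noncomputable def WG.step {W : Type} : WG W → (W → Prop) → (W → Prop)
  | .cmp i j, s => Function.update (Function.update s i (s i ∧ s j)) j (s i ∨ s j)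
  | .cst i b, s => Function.update s i (b = true)

theorem step_cmp_snd {W : Type} (i j : W) (s : W → Prop) :
    (WG.cmp i j).step s j = (s i ∨ s j) := by
  classical
  show Function.update _ j _ j = _
  rw [Function.update_self]

theorem step_cmp_fst {W : Type} {i j : W} (h : i ≠ j) (s : W → Prop) :
    (WG.cmp i j).step s i = (s i ∧ s j) := by
  classical
  show Function.update (Function.update s i _) j _ i = _
  rw [Function.update_of_ne h, Function.update_self]

theorem step_cmp_ne {W : Type} {i j w : W} (hi : w ≠ i) (hj : w ≠ j) (s : W → Prop) :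
    (WG.cmp i j).step s w = s w := by
  classical
  show Function.update (Function.update s i _) j _ w = _
  rw [Function.update_of_ne hj, Function.update_of_ne hi]

/-- the effect of a list of gates -/
noncomputable def wrun {W : Type} (L : List (WG W)) (s : W → Prop) : W → Prop :=
  L.foldl (fun s G => G.step s) s

theorem wrun_append {W : Type} (L L' : List (WG W)) (s : W → Prop) :
    wrun (L ++ L') s = wrun L' (wrun L s) := by
  unfold wrun; rw [List.foldl_append]

section map

variable {W W' : Type} {f : W → W'}

theorem step_map (hf : Function.Injective f) (G : WG W) (s : W' → Prop) :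
    (G.map f).step s ∘ f = G.step (s ∘ f) := by
  classical
  cases G with
  | cmp i j =>
    show Function.update (Function.update s (f i) _) (f j) _ ∘ f = _
    rw [Function.update_comp_eq_of_injective _ hf, Function.update_comp_eq_of_injective _ hf]
    rfl
  | cst i b =>
    show Function.update s (f i) _ ∘ f = _
    rw [Function.update_comp_eq_of_injective _ hf]
    rfl

theorem step_other {w : W'} (hw : ∀ i, f i ≠ w) (G : WG W) (s : W' → Prop) :
    (G.map f).step s w = s w := by
  classical
  cases G with
  | cmp i j =>
    show Function.update (Function.update s (f i) _) (f j) _ w = _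
    rw [Function.update_of_ne (hw j).symm, Function.update_of_ne (hw i).symm]
  | cst i b =>
    show Function.update s (f i) _ w = _
    rw [Function.update_of_ne (hw i).symm]

theorem wrun_map (hf : Function.Injective f) (L : List (WG W)) : ∀ s : W' → Prop,
    wrun (L.map (WG.map f)) s ∘ f = wrun L (s ∘ f) := by
  induction L with
  | nil => intro s; rfl
  | cons G L ih =>
    intro s
    show wrun (L.map (WG.map f)) ((G.map f).step s) ∘ f = wrun L (G.step (s ∘ f))
    rw [ih, step_map hf]

theorem wrun_other {w : W'} (hw : ∀ i, f i ≠ w) (L : List (WG W)) : ∀ s : W' → Prop,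
    wrun (L.map (WG.map f)) s w = s w := by
  induction L with
  | nil => intro s; rfl
  | cons G L ih =>
    intro s
    show wrun (L.map (WG.map f)) ((G.map f).step s) w = _
    rw [ih, step_other hw]

end map

/-- `p` is computed by a comparator circuit with at most `n` wires -/
def Cp {X : Type} (p : (X → Prop) → Prop) (n : ℕ) : Prop :=
  ∃ (W : Type) (_ : Fintype W) (src : W → Lit X) (L : List (WG W)) (o : W),
    Fintype.card W ≤ n ∧ ∀ v, (wrun L (fun i => (src i).val v) o ↔ p v)

section cp

variable {X : Type}

theorem Cp.toCNet {p : (X → Prop) → Prop} {n : ℕ} (h : Cp p n) :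
    ∃ N : CNet X, N.wires ≤ n ∧ ∀ v, (N.Accepts v ↔ p v) := by
  classical
  obtain ⟨W, _, src, L, o, hn, hp⟩ := h
  let e := Fintype.equivFin W
  let g : WG W → Gate (Fintype.card W) := fun G => match G with
    | .cmp i j => .cmp (e i) (e j)
    | .cst i b => .cst (e i) b
  refine ⟨⟨Fintype.card W, fun i => src (e.symm i), L.map g, e o⟩, hn, fun v => ?_⟩
  rw [← hp v]
  have key : ∀ (L : List (WG W)) (s : Fin (Fintype.card W) → Prop),
      (L.map g).foldl (fun s G => G.step s) s ∘ e = wrun L (s ∘ e) := by
    intro L
    induction L with
    | nil => intro s; rfl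
    | cons G L ih =>
      intro s
      show (L.map g).foldl (fun s G => G.step s) ((g G).step s) ∘ e = wrun L (G.step (s ∘ e))
      rw [ih]
      congr 1
      cases G with
      | cmp i j =>
        show Function.update (Function.update s (e i) _) (e j) _ ∘ e = _
        rw [Function.update_comp_eq_of_injective _ e.injective,
          Function.update_comp_eq_of_injective _ e.injective]
        rfl
      | cst i b =>
        show Function.update s (e i) _ ∘ e = _
        rw [Function.update_comp_eq_of_injective _ e.injective]
        rfl
  have h1 := congrFun (key L (fun i => (src (e.symm i)).val v)) o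
  have h2 : (fun i => (src (e.symm i)).val v) ∘ e = fun i => (src i).val v := by
    funext i
    show (src (e.symm (e i))).val v = _
    rw [e.symm_apply_apply]
  rw [h2] at h1
  show (L.map g).foldl (fun s G => G.step s) (fun i => (src (e.symm i)).val v) (e o) ↔ _
  rw [← h1]
  rfl

theorem Cp.mono {p : (X → Prop) → Prop} {n m : ℕ} (h : Cp p n) (hnm : n ≤ m) : Cp p m := by
  obtain ⟨W, i, src, L, o, hn, hp⟩ := h
  exact ⟨W, i, src, L, o, hn.trans hnm, hp⟩

theorem cp_lit (l : Lit X) : Cp l.val 1 :=
  ⟨Unit, inferInstance, fun _ => l, [], (), by simp, fun _ => Iff.rfl⟩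

/-- **Composition** -/
theorem cp_comp {W : Type} [Fintype W] (q : W → (X → Prop) → Prop) (n : ℕ)
    (hq : ∀ i, Cp (q i) n) (L : List (WG W)) (o : W) :
    Cp (fun v => wrun L (fun i => q i v) o) (Fintype.card W * n) := by
  classical
  choose W' inst src L' o' hn hp using hq
  refine ⟨Σ i, W' i, inferInstance, fun z => src z.1 z.2,
    ((Finset.univ : Finset W).toList.flatMap fun i => (L' i).map (WG.map (Sigma.mk i))) ++
      L.map (WG.map fun i => ⟨i, o' i⟩), ⟨o, o' o⟩, ?_, ?_⟩
  · rw [Fintype.card_sigma]
    refine (Finset.sum_le_sum fun i _ => hn i).trans ?_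
    rw [Finset.sum_const, Finset.card_univ, smul_eq_mul]
  · intro v
    have hinj : Function.Injective (fun i : W => (⟨i, o' i⟩ : Σ i, W' i)) := by
      intro i j hij
      exact congrArg Sigma.fst hij
    rw [wrun_append]
    have h1 := congrFun (wrun_map hinj L (wrun ((Finset.univ : Finset W).toList.flatMap fun i =>
      (L' i).map (WG.map (Sigma.mk i))) (fun z => (src z.1 z.2).val v))) o
    have h2 : wrun ((Finset.univ : Finset W).toList.flatMap fun i =>
        (L' i).map (WG.map (Sigma.mk i))) (fun z => (src z.1 z.2).val v) ∘
          (fun i : W => (⟨i, o' i⟩ : Σ i, W' i)) = fun i => q i v := by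
      have key : ∀ (l : List W), l.Nodup → ∀ s : (Σ i, W' i) → Prop, ∀ i : W,
          (fun w => wrun (l.flatMap fun i => (L' i).map (WG.map (Sigma.mk i))) s ⟨i, w⟩) =
            if i ∈ l then wrun (L' i) (fun w => s ⟨i, w⟩) else fun w => s ⟨i, w⟩ := by
        intro l
        induction l with
        | nil => intro _ s i; simp [wrun]
        | cons j l ih =>
          intro hl s i
          rw [List.nodup_cons] at hl
          rw [List.flatMap_cons]
          simp only [wrun_append]
          rw [ih hl.2]
          by_cases hij : i = j
          · subst hij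
            rw [if_neg hl.1, if_pos List.mem_cons_self]
            have := wrun_map (f := Sigma.mk i) sigma_mk_injective (L' i) s
            funext w
            exact congrFun this w
          · have hne : ∀ w : W' i, ∀ w', (⟨j, w'⟩ : Σ i, W' i) ≠ ⟨i, w⟩ := by
              intro w w' h
              exact hij (congrArg Sigma.fst h).symm
            have h3 : (fun w => wrun ((L' j).map (WG.map (Sigma.mk j))) s ⟨i, w⟩)
                = fun w => s ⟨i, w⟩ := by
              funext w
              exact wrun_other (hne w) (L' j) s
            rw [h3]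
            by_cases hil : i ∈ l
            · rw [if_pos hil, if_pos (List.mem_cons_of_mem _ hil)]
            · rw [if_neg hil, if_neg]
              intro h
              rcases List.mem_cons.1 h with h | h
              · exact hij h
              · exact hil h
      funext i
      have h4 := congrFun (key (Finset.univ : Finset W).toList (Finset.nodup_toList _)
        (fun z => (src z.1 z.2).val v) i) (o' i)
      rw [if_pos (by simp)] at h4
      show wrun _ _ (⟨i, o' i⟩ : Σ i, W' i) = _
      rw [h4]
      exact propext (hp i v)
    rw [h2] at h1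
    exact iff_of_eq h1

/-! ### thresholds -/

/-- run the value on `x` through the first `t` accumulators -/
def accG {K : Type} (k : ℕ) (x : K) : (t : ℕ) → t ≤ k → List (WG (K ⊕ Fin k))
  | 0, _ => []
  | t + 1, h => accG k x t (by omega) ++ [WG.cmp (Sum.inl x) (Sum.inr ⟨t, h⟩)]

theorem accG_spec {K : Type} (k : ℕ) (x : K) (s : K ⊕ Fin k → Prop) (c : ℕ)
    (hs : ∀ j : Fin k, (s (Sum.inr j) ↔ j.val + 1 ≤ c)) (t : ℕ) (ht : t ≤ k) :
    (∀ y, y ≠ x → wrun (accG k x t ht) s (Sum.inl y) = s (Sum.inl y)) ∧
    (wrun (accG k x t ht) s (Sum.inl x) ↔ s (Sum.inl x) ∧ t ≤ c) ∧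
    ∀ j : Fin k, (wrun (accG k x t ht) s (Sum.inr j) ↔
      j.val + 1 ≤ c ∨ (j.val < t ∧ s (Sum.inl x) ∧ j.val ≤ c)) := by
  classical
  induction t with
  | zero =>
    refine ⟨fun y _ => rfl, ?_, ?_⟩
    · show s (Sum.inl x) ↔ _
      simp
    · intro j
      show s (Sum.inr j) ↔ _
      rw [hs j]
      simp
  | succ t ih =>
    obtain ⟨h1, h2, h3⟩ := ih (by omega)
    have e : wrun (accG k x (t + 1) ht) s = (WG.cmp (Sum.inl x) (Sum.inr ⟨t, ht⟩)).step
        (wrun (accG k x t (by omega)) s) := by
      show wrun (accG k x t _ ++ [_]) s = _
      rw [wrun_append]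
      rfl
    obtain ⟨s', hs'⟩ : ∃ s', s' = wrun (accG k x t (by omega)) s := ⟨_, rfl⟩
    rw [e, ← hs']
    rw [← hs'] at h1 h2 h3
    refine ⟨?_, ?_, ?_⟩
    · intro y hy
      rw [step_cmp_ne (by simpa using hy) (by simp)]
      exact h1 y hy
    · rw [step_cmp_fst (by simp), h2, h3]
      simp only
      constructor
      · rintro ⟨⟨a, b⟩, c | c⟩
        · exact ⟨a, c⟩
        · omega
      · rintro ⟨a, b⟩
        exact ⟨⟨a, by omega⟩, Or.inl b⟩
    · intro j
      by_cases hj : j = ⟨t, ht⟩
      · subst hj
        rw [step_cmp_snd, h2, h3]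
        simp only
        constructor
        · rintro (⟨a, b⟩ | b | b)
          · exact Or.inr ⟨by omega, a, b⟩
          · exact Or.inl b
          · omega
        · rintro (a | ⟨-, a, b⟩)
          · exact Or.inr (Or.inl a)
          · exact Or.inl ⟨a, b⟩
      · rw [step_cmp_ne (by simp) (by simpa using hj), h3]
        have hne : j.val ≠ t := fun h => hj (Fin.ext h)
        constructor
        · rintro (a | ⟨a, b, c⟩)
          · exact Or.inl a
          · exact Or.inr ⟨by omega, b, c⟩
        · rintro (a | ⟨a, b, c⟩)
          · exact Or.inl a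
          · exact Or.inr ⟨by omega, b, c⟩

/-- run all the values of the list through the accumulators -/
def allG {K : Type} (k : ℕ) : List K → List (WG (K ⊕ Fin k))
  | [] => []
  | x :: l => accG k x k le_rfl ++ allG k l

open Classical in
theorem allG_spec {K : Type} (k : ℕ) (p : K → Prop) : ∀ (l : List K), l.Nodup →
    ∀ (s : K ⊕ Fin k → Prop) (c : ℕ), (∀ j : Fin k, (s (Sum.inr j) ↔ j.val + 1 ≤ c)) →
      (∀ x ∈ l, (s (Sum.inl x) ↔ p x)) →
      ∀ j : Fin k, (wrun (allG k l) s (Sum.inr j) ↔
        j.val + 1 ≤ c + (l.filter (fun x => decide (p x))).length) := by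
  intro l
  induction l with
  | nil =>
    intro _ s c hs _ j
    show s (Sum.inr j) ↔ _
    rw [hs j]; simp
  | cons x l ih =>
    intro hl s c hs hp j
    rw [List.nodup_cons] at hl
    obtain ⟨h1, -, h3⟩ := accG_spec k x s c hs k le_rfl
    show wrun (accG k x k le_rfl ++ allG k l) s (Sum.inr j) ↔ _
    rw [wrun_append]
    have hx := hp x List.mem_cons_self
    have h4 := ih hl.2 (wrun (accG k x k le_rfl) s) (c + if p x then 1 else 0) (by
      intro j
      rw [h3 j, hx]
      have := j.2
      split_ifs with h
      · constructor
        · rintro (a | ⟨a, b, c⟩) <;> omega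
        · intro a; exact Or.inr ⟨this, h, by omega⟩
      · constructor
        · rintro (a | ⟨a, b, c⟩)
          · omega
          · exact absurd b h
        · intro a; exact Or.inl (by omega)) (by
      intro y hy
      have hyx : y ≠ x := fun h => hl.1 (h ▸ hy)
      rw [h1 y hyx]
      exact hp y (List.mem_cons_of_mem _ hy)) j
    rw [h4]
    rw [List.filter_cons]
    by_cases h : p x
    · simp only [h, if_true, decide_true, List.length_cons]
      constructor <;> intro a <;> omega
    · simp only [h, if_false, decide_false, Bool.false_eq_true]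
      constructor <;> intro a <;> omega

open Classical in
/-- **Thresholds**: at least `k` of the variables in `S` are true -/
theorem cp_thr (S : Finset X) (k : ℕ) :
    Cp (fun v => k ≤ (S.filter v).card) (S.card + k + 1) := by
  rcases Nat.eq_zero_or_pos k with rfl | hk
  · obtain ⟨W, i, src, L, o, hn, hp⟩ :=
      (cp_lit (X := X) (.const true)).mono (m := S.card + 0 + 1) (by omega)
    refine ⟨W, i, src, L, o, hn, fun v => (hp v).trans ?_⟩
    show (true = true) ↔ _
    simp
  · refine ⟨S ⊕ Fin k, inferInstance, fun z => match z with
      | Sum.inl x => .var x.1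
      | Sum.inr _ => .const false, allG k (Finset.univ : Finset S).toList,
      Sum.inr ⟨k - 1, by omega⟩, by simp, ?_⟩
    intro v
    have h1 := allG_spec k (fun x : S => v x.1) (Finset.univ : Finset S).toList
      (Finset.nodup_toList _) (fun z => (match z with
        | Sum.inl x => (Lit.var x.1 : Lit X)
        | Sum.inr _ => .const false).val v) 0 (by
        intro j
        show (false = true) ↔ _
        simp) (by
        intro x _
        exact Iff.rfl) ⟨k - 1, by omega⟩
    refine h1.trans ?_
    have h2 : ((Finset.univ : Finset S).toList.filter (fun x => decide (v x.1))).length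
        = (S.filter v).card := by
      have h3 : ((Finset.univ : Finset S).toList.filter (fun x => decide (v x.1))).toFinset
          = (Finset.univ : Finset S).filter (fun x => v x.1) := by
        ext x; simp
      have h4 : ((Finset.univ : Finset S).toList.filter (fun x => decide (v x.1))).Nodup :=
        (Finset.nodup_toList _).filter _
      rw [← List.toFinset_card_of_nodup h4, h3]
      have h5 : (S.filter v) = ((Finset.univ : Finset S).filter (fun x => v x.1)).map
          (Function.Embedding.subtype _) := by
        ext x; simp [and_comm]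
      rw [h5, Finset.card_map]
    rw [h2]
    show k - 1 + 1 ≤ 0 + _ ↔ _
    omega

end cp

end H198R2.CC
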